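import Pool.Agent.K3lead.SD.Sign

/-! A strictly sign-symmetric `3 × 3` matrix with positive principal minors and non-real eigenvalues, and
its blow-ups. -/

set_option autoImplicit false
set_option linter.unusedSectionVars false

namespace Pool.Agent.K3lead.SD

open Matrix Finset Filter Topology

/-- the entries -/
def NZ : Fin 3 → Fin 3 → ℤ := ![![20, -15, -4], ![-4, 20, -15], ![-15, -4, 20]]

/-- the matrix -/
def N : Matrix (Fin 3) (Fin 3) ℝ := Matrix.of fun i j => (NZ i j : ℝ)

lemma N_apply (i j : Fin 3) : N i j = (NZ i j : ℝ) := rfl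

def d2 (a b c d : Fin 3) : ℤ := NZ a c * NZ b d - NZ a d * NZ b c

def d3 (a b c d e f : Fin 3) : ℤ := NZ a d * NZ b e * NZ c f - NZ a d * NZ b f * NZ c e -
  NZ a e * NZ b d * NZ c f + NZ a e * NZ b f * NZ c d + NZ a f * NZ b d * NZ c e -
  NZ a f * NZ b e * NZ c d

lemma det1 (R C : Fin 1 → Fin 3) : (N.submatrix R C).det = (NZ (R 0) (C 0) : ℝ) := by
  rw [det_fin_one]; rfl

lemma det2 (R C : Fin 2 → Fin 3) : (N.submatrix R C).det = (d2 (R 0) (R 1) (C 0) (C 1) : ℝ) := by
  rw [det_fin_two]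
  simp only [submatrix_apply, N_apply, d2]
  push_cast
  ring

lemma det3 (R C : Fin 3 → Fin 3) : (N.submatrix R C).det =
    (d3 (R 0) (R 1) (R 2) (C 0) (C 1) (C 2) : ℝ) := by
  rw [det_fin_three]
  simp only [submatrix_apply, N_apply, d3]
  push_cast
  ring

lemma g1_1 : ∀ a b : Fin 3, (NZ a b = 0 ∧ NZ b a = 0) ∨ 0 < NZ a b * NZ b a := by decide

lemma g1_2 : ∀ a b c d : Fin 3, (d2 a b c d = 0 ∧ d2 c d a b = 0) ∨ 0 < d2 a b c d * d2 c d a b := by
  decide

set_option maxRecDepth 100000 in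
lemma g1_3 : ∀ a b c d e f : Fin 3, (d3 a b c d e f = 0 ∧ d3 d e f a b c = 0) ∨
    0 < d3 a b c d e f * d3 d e f a b c := by
  decide

lemma g2_0 : ∀ j : Fin 3, 4 * |NZ j j| ≤ 305 := by decide

lemma g2_1 : ∀ j a b : Fin 3, 4 * |d2 j a j b| ≤ 305 * |NZ a b| := by decide

set_option maxRecDepth 100000 in
lemma g2_2 : ∀ j a b c d : Fin 3, 4 * |d3 j a b j c d| ≤ 305 * |d2 a b c d| := by decide

lemma g3_2 : ∀ a b : Fin 3, a ≠ b → 0 < d2 a b a b := by decide

lemma g3_3 : ∀ a b c : Fin 3, a ≠ b → a ≠ c → b ≠ c → 0 < d3 a b c a b c := by decide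

lemma ext_cons {κ : Type} (M : Matrix κ κ ℝ) {k : ℕ} (R C : Fin k → κ) (j : κ) :
    (M.submatrix (ext j R) (ext j C)).det =
      (M.submatrix (Fin.cons j R : Fin (k + 1) → κ) (Fin.cons j C : Fin (k + 1) → κ)).det := by
  rw [← det_submatrix_equiv_self (finSuccEquiv k)]
  congr 1
  have h : ∀ R : Fin k → κ, ext j R ∘ finSuccEquiv k = (Fin.cons j R : Fin (k + 1) → κ) := by
    intro R
    funext i
    refine Fin.cases ?_ (fun i => ?_) i
    · simp
    · simp
  rw [submatrix_submatrix, h, h]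

lemma not_inj {k : ℕ} (hk : 3 < k) (R : Fin k → Fin 3) : ¬ Function.Injective R := by
  intro h
  have := Fintype.card_le_of_injective R h
  simp at this
  omega

theorem good_N : Good (305 / 4) N := by
  refine ⟨?_, ?_, ?_⟩
  · intro k R C
    have hc : k = 0 ∨ k = 1 ∨ k = 2 ∨ k = 3 ∨ 3 < k := by omega
    rcases hc with rfl | rfl | rfl | rfl | hk
    · right; simp
    · rw [det1, det1]
      exact_mod_cast g1_1 (R 0) (C 0)
    · rw [det2, det2]
      exact_mod_cast g1_2 (R 0) (R 1) (C 0) (C 1)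
    · rw [det3, det3]
      exact_mod_cast g1_3 (R 0) (R 1) (R 2) (C 0) (C 1) (C 2)
    · left
      exact ⟨det_zero_of_not_injective_left (not_inj hk R),
        det_zero_of_not_injective_right (not_inj hk R)⟩
  · intro k R C j
    have hc : k = 0 ∨ k = 1 ∨ k = 2 ∨ 2 < k := by omega
    rw [ext_cons]
    rcases hc with rfl | rfl | rfl | hk
    · rw [det1]
      simp only [det_isEmpty, abs_one, mul_one, Fin.cons_zero]
      have h := g2_0 j
      have h' : 4 * |(NZ j j : ℝ)| ≤ 305 := by exact_mod_cast h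
      linarith
    · rw [det2, det1]
      have h := g2_1 j (R 0) (C 0)
      have h' : 4 * |(d2 j (R 0) j (C 0) : ℝ)| ≤ 305 * |(NZ (R 0) (C 0) : ℝ)| := by exact_mod_cast h
      have e1 : (Fin.cons j R : Fin 2 → Fin 3) 1 = R 0 := rfl
      have e2 : (Fin.cons j C : Fin 2 → Fin 3) 1 = C 0 := rfl
      rw [Fin.cons_zero, Fin.cons_zero, e1, e2]
      linarith
    · rw [det3, det2]
      have h := g2_2 j (R 0) (R 1) (C 0) (C 1)
      have h' : 4 * |(d3 j (R 0) (R 1) j (C 0) (C 1) : ℝ)| ≤
        305 * |(d2 (R 0) (R 1) (C 0) (C 1) : ℝ)| := by exact_mod_cast h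
      have e1 : (Fin.cons j R : Fin 3 → Fin 3) 1 = R 0 := rfl
      have e2 : (Fin.cons j C : Fin 3 → Fin 3) 1 = C 0 := rfl
      have e3 : (Fin.cons j R : Fin 3 → Fin 3) 2 = R 1 := rfl
      have e4 : (Fin.cons j C : Fin 3 → Fin 3) 2 = C 1 := rfl
      rw [Fin.cons_zero, Fin.cons_zero, e1, e2, e3, e4]
      linarith
    · rw [det_zero_of_not_injective_left (not_inj (by omega) _), abs_zero]
      positivity
  · intro k R hR
    have hc : k = 0 ∨ k = 1 ∨ k = 2 ∨ k = 3 ∨ 3 < k := by omega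
    rcases hc with rfl | rfl | rfl | rfl | hk
    · simp
    · rw [det1]
      have : ∀ a : Fin 3, 0 < NZ a a := by decide
      exact_mod_cast this (R 0)
    · rw [det2]
      exact_mod_cast g3_2 (R 0) (R 1) (fun h => absurd (hR h) (by decide))
    · rw [det3]
      exact_mod_cast g3_3 (R 0) (R 1) (R 2) (fun h => absurd (hR h) (by decide))
        (fun h => absurd (hR h) (by decide)) (fun h => absurd (hR h) (by decide))
    · exact absurd hR (not_inj hk R)

lemma Good.smul {q : ℝ} {κ : Type} {M : Matrix κ κ ℝ} (hG : Good q M) {s : ℝ} (hs : 0 < s) :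
    Good (s * q) (s • M) := by
  have hsub : ∀ {ι : Type} (R C : ι → κ), (s • M).submatrix R C = s • M.submatrix R C :=
    fun _ _ => rfl
  refine ⟨fun k R C => ?_, fun k R C j => ?_, fun k R hR => ?_⟩
  · rw [hsub, hsub, det_smul, det_smul]
    have hp : (0 : ℝ) < s ^ Fintype.card (Fin k) := pow_pos hs _
    rcases hG.g1 k R C with h | h
    · left
      rw [h.1, h.2]
      simp
    · right
      have : s ^ Fintype.card (Fin k) * (M.submatrix R C).det *
          (s ^ Fintype.card (Fin k) * (M.submatrix C R).det) =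
          (s ^ Fintype.card (Fin k)) ^ 2 * ((M.submatrix R C).det * (M.submatrix C R).det) := by ring
      rw [this]
      positivity
  · rw [hsub, hsub, det_smul, det_smul, abs_mul, abs_mul, abs_of_pos (pow_pos hs _), abs_of_pos (pow_pos hs _),
      Fintype.card_option, pow_succ]
    have h := hG.g2 k R C j
    calc s ^ Fintype.card (Fin k) * s * |(M.submatrix (ext j R) (ext j C)).det|
        ≤ s ^ Fintype.card (Fin k) * s * (q * |(M.submatrix R C).det|) := by gcongr
      _ = _ := by ring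
  · rw [hsub, det_smul]
    exact mul_pos (pow_pos hs _) (hG.g3 k R hR)

/-- the residue modulo `3` -/
def c3 (i : ℕ) : Fin 3 := ⟨i % 3, Nat.mod_lt _ (by norm_num)⟩

/-- the blow-up of `s • N` with a diagonal perturbation -/
def blow (s : ℝ) (m : ℕ) (D : Fin m → ℝ) : Matrix (Fin m) (Fin m) ℝ :=
  Matrix.of fun i j => s * N (c3 i) (c3 j) + if i = j then D i else 0

theorem exists_blow {s : ℝ} (hs : 0 < s) (m : ℕ) (hm : 3 ≤ m) : ∀ q η : ℝ, s * (305 / 4) < q → 0 < η →
    ∃ D : Fin m → ℝ, (∀ i, 0 ≤ D i ∧ D i < η) ∧ (∀ i : Fin m, (i : ℕ) < 3 → D i = 0) ∧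
      Good q (blow s m D) := by
  induction m, hm using Nat.le_induction with
  | base =>
    intro q η hq hη
    refine ⟨fun _ => 0, fun _ => ⟨le_rfl, hη⟩, fun _ _ => rfl, ?_⟩
    have h : blow s 3 (fun _ => 0) = s • N := by
      ext i j
      have hi : c3 i = i := Fin.ext (Nat.mod_eq_of_lt i.2)
      have hj : c3 j = j := Fin.ext (Nat.mod_eq_of_lt j.2)
      simp [blow, hi, hj]
    rw [h]
    exact (good_N.smul hs).mono hq.le
  | succ m hm ih =>
    intro q η hq hη
    obtain ⟨D, hD1, hD2, hG⟩ := ih ((s * (305 / 4) + q) / 2) η (by linarith) hη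
    let i₀ : Fin m := ⟨m % 3, lt_of_lt_of_le (Nat.mod_lt _ (by norm_num)) hm⟩
    have hev := hG.dup (q' := q) (by linarith [mul_pos hs (by norm_num : (0 : ℝ) < 305 / 4)]) (by linarith) i₀
    have hsm : ∀ᶠ ε : ℝ in 𝓝[>] 0, ε < η := by
      have : Tendsto (fun ε : ℝ => ε) (𝓝[>] 0) (𝓝 0) := tendsto_id.mono_left nhdsWithin_le_nhds
      exact this.eventually_lt_const hη
    obtain ⟨ε, ⟨h1, h2⟩, h3⟩ := ((hev.and hsm).and self_mem_nhdsWithin).exists
    have hε : 0 < ε := h3
    have hi0 : c3 (i₀ : ℕ) = c3 m := Fin.ext (Nat.mod_mod _ _)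
    have hD0 : D i₀ = 0 := hD2 i₀ (Nat.mod_lt _ (by norm_num))
    refine ⟨Fin.snoc D ε, ?_, ?_, ?_⟩
    · intro i
      refine Fin.lastCases ?_ (fun i => ?_) i
      · rw [Fin.snoc_last]; exact ⟨hε.le, h2⟩
      · rw [Fin.snoc_castSucc]; exact hD1 i
    · intro i
      refine Fin.lastCases ?_ (fun i => ?_) i
      · intro h
        rw [Fin.val_last] at h
        omega
      · intro h
        rw [Fin.snoc_castSucc]
        exact hD2 i h
    · have h : blow s (m + 1) (Fin.snoc D ε) =
          (SD.dup (blow s m D) i₀ ε).submatrix (finSuccEquivLast) (finSuccEquivLast) := by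
        ext i j
        refine Fin.lastCases ?_ (fun i => ?_) i <;> refine Fin.lastCases ?_ (fun j => ?_) j
        · simp [blow, dup_apply, hi0, hD0]
        · have hne : Fin.last m ≠ j.castSucc := (Fin.castSucc_lt_last j).ne'
          by_cases hj : i₀ = j
          · subst hj
            simp [blow, dup_apply, hi0, hD0, hne]
          · simp [blow, dup_apply, hi0, hne, hj]
        · have hne : i.castSucc ≠ Fin.last m := (Fin.castSucc_lt_last i).ne
          by_cases hj : i = i₀
          · subst hj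
            simp [blow, dup_apply, hi0, hD0, hne]
          · simp [blow, dup_apply, hi0, hne, hj]
        · simp [blow, dup_apply]
      rw [h]
      exact h1.reindex _ (Equiv.injective _)

end Pool.Agent.K3lead.SD
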