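import Mathlib

/-! Determinants of submatrices along arbitrary maps: elementary facts. -/

set_option autoImplicit false

namespace Pool.Agent.K3lead.SD

open Matrix Finset

section
variable {ι ι' : Type} [Fintype ι] [DecidableEq ι] [Fintype ι'] [DecidableEq ι']

lemma det_two (X : Matrix ι' ι' ℝ) (e₁ e₂ : ι ≃ ι') :
    (X.submatrix e₁ e₂).det = ((Equiv.Perm.sign (e₁.symm.trans e₂) : ℤ) : ℝ) * X.det := by
  have h : X.submatrix e₁ e₂ = (X.submatrix id (e₁.symm.trans e₂)).submatrix e₁ e₁ := by
    ext i j
    simp
  rw [h, det_submatrix_equiv_self, det_permute']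

/-- simultaneous reordering does not change the product -/
lemma det_mul_det (X Z : Matrix ι' ι' ℝ) (e₁ e₂ : ι ≃ ι') :
    (X.submatrix e₁ e₂).det * (Z.submatrix e₂ e₁).det = X.det * Z.det := by
  rw [det_two X e₁ e₂, det_two Z e₂ e₁]
  have h : e₂.symm.trans e₁ = (e₁.symm.trans e₂)⁻¹ := by
    ext x
    simp [Equiv.Perm.inv_def]
  rw [h, Equiv.Perm.sign_inv]
  have h2 : ((Equiv.Perm.sign (e₁.symm.trans e₂) : ℤ) : ℝ) *
      ((Equiv.Perm.sign (e₁.symm.trans e₂) : ℤ) : ℝ) = 1 := by
    rcases Int.units_eq_one_or (Equiv.Perm.sign (e₁.symm.trans e₂)) with h | h <;> simp [h]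
  calc _ = (((Equiv.Perm.sign (e₁.symm.trans e₂) : ℤ) : ℝ) *
      ((Equiv.Perm.sign (e₁.symm.trans e₂) : ℤ) : ℝ)) * (X.det * Z.det) := by ring
    _ = _ := by rw [h2, one_mul]

lemma abs_det_two (X : Matrix ι' ι' ℝ) (e₁ e₂ : ι ≃ ι') : |(X.submatrix e₁ e₂).det| = |X.det| := by
  rw [det_two, abs_mul]
  rcases Int.units_eq_one_or (Equiv.Perm.sign (e₁.symm.trans e₂)) with h | h <;> simp [h]

/-- both determinants vanish together with a reordering -/
lemma det_two_eq_zero (X : Matrix ι' ι' ℝ) (e₁ e₂ : ι ≃ ι') :
    (X.submatrix e₁ e₂).det = 0 ↔ X.det = 0 := by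
  rw [← abs_eq_zero, abs_det_two, abs_eq_zero]

end

section
variable {ι κ : Type} [Fintype ι] [DecidableEq ι]

lemma det_zero_of_not_injective_left {M : Matrix κ κ ℝ} {R C : ι → κ} (h : ¬ Function.Injective R) :
    (M.submatrix R C).det = 0 := by
  simp only [Function.Injective, not_forall] at h
  obtain ⟨i, j, h1, h2⟩ := h
  refine det_zero_of_row_eq h2 ?_
  funext k
  simp [submatrix_apply, h1]

lemma det_zero_of_not_injective_right {M : Matrix κ κ ℝ} {R C : ι → κ}
    (h : ¬ Function.Injective C) : (M.submatrix R C).det = 0 := by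
  simp only [Function.Injective, not_forall] at h
  obtain ⟨i, j, h1, h2⟩ := h
  refine det_zero_of_column_eq h2 ?_
  intro k
  simp [submatrix_apply, h1]

end

section
variable {ι : Type} [Fintype ι] [DecidableEq ι]

/-- if the column `none` vanishes off the diagonal -/
lemma det_option_col (Z : Matrix (Option ι) (Option ι) ℝ) (h : ∀ i, Z (some i) none = 0) :
    Z.det = Z none none * (Z.submatrix some some).det := by
  have h1 : Z.submatrix (Equiv.optionEquivSumPUnit.{0} ι).symm (Equiv.optionEquivSumPUnit.{0} ι).symm =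
      fromBlocks (Z.submatrix some some) 0 (Matrix.of fun _ j => Z none (some j))
        (Matrix.of fun _ _ => Z none none) := by
    ext i j
    rcases i with i | i <;> rcases j with j | j
    · simp
    · simp [h]
    · simp
    · simp
  have h2 := det_submatrix_equiv_self (Equiv.optionEquivSumPUnit.{0} ι).symm Z
  rw [h1, det_fromBlocks_zero₁₂] at h2
  rw [← h2, mul_comm]
  congr 1
  simp [det_unique]

/-- if the row `none` vanishes off the diagonal -/
lemma det_option_row (Z : Matrix (Option ι) (Option ι) ℝ) (h : ∀ i, Z none (some i) = 0) :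
    Z.det = Z none none * (Z.submatrix some some).det := by
  have h1 := det_option_col Zᵀ (fun i => by simpa using h i)
  rw [det_transpose] at h1
  rw [h1]
  congr 1
  rw [← det_transpose]
  rfl

/-- change of the corner entry -/
lemma det_add_corner (Z W : Matrix (Option ι) (Option ι) ℝ) (ε : ℝ)
    (h0 : W none none = Z none none + ε) (h1 : ∀ i j, (i ≠ none ∨ j ≠ none) → W i j = Z i j) :
    W.det = Z.det + ε * (Z.submatrix some some).det := by
  have hW : W = updateCol Z none ((fun i => Z i none) + ε • (Pi.single none (1 : ℝ))) := by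
    ext i j
    rcases j with _ | j
    · rw [updateCol_self]
      rcases i with _ | i
      · simp [h0]
      · simp [h1 (some i) none (Or.inl (by simp))]
    · rw [updateCol_ne (by simp)]
      exact h1 i (some j) (Or.inr (by simp))
  rw [hW, det_updateCol_add, det_updateCol_smul]
  congr 1
  · congr 1
    ext i j
    rcases j with _ | j
    · rw [updateCol_self]
    · rw [updateCol_ne (by simp)]
  · congr 1
    rw [det_option_col]
    · rw [updateCol_self, Pi.single_eq_same, one_mul]
      congr 1
    · intro i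
      rw [updateCol_self]
      simp

end

end Pool.Agent.K3lead.SD
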