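import Pool.Agent.K3lead.SD.Good

/-! The minors of the matrix `[[1, 1 - M], [1, 1]]`. -/

set_option autoImplicit false
set_option linter.unusedSectionVars false

namespace Pool.Agent.K3lead.SD

open Matrix Finset

/-- the matrix `[[1, 1 - M], [1, 1]]` -/
def dbl {κ : Type} [DecidableEq κ] (M : Matrix κ κ ℝ) : Matrix (κ ⊕ κ) (κ ⊕ κ) ℝ :=
  fromBlocks 1 (1 - M) 1 1

section
variable {κ υ ρ : Type} [Fintype υ] [DecidableEq υ] [Fintype ρ] [DecidableEq ρ]

/-- the reduced form of a submatrix of `dbl M` -/
def red (M : Matrix κ κ ℝ) (y : υ → κ) (t t' : υ → Bool) (R C : ρ → κ) :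
    Matrix (υ ⊕ ρ) (υ ⊕ ρ) ℝ :=
  fromBlocks
    (Matrix.of fun u u' => (if u = u' then (1 : ℝ) else 0) -
      (if t u = false ∧ t' u' = true then M (y u) (y u') else 0))
    (Matrix.of fun u j => if t u = false then M (y u) (C j) else 0)
    (Matrix.of fun i u' => if t' u' = true then - M (R i) (y u') else 0)
    (Matrix.of fun i j => M (R i) (C j))

/-- the factor which belongs to `u` -/
def cc (q : ℝ) (t t' : υ → Bool) (u : υ) : ℝ := if t u = false ∧ t' u = true then 1 + q else 1

/-- `Option (υ ⊕ ρ) ≃ Option υ ⊕ ρ` -/
def eL (υ ρ : Type) : Option (υ ⊕ ρ) ≃ Option υ ⊕ ρ where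
  toFun o := match o with
    | none => Sum.inl none
    | some (Sum.inl u) => Sum.inl (some u)
    | some (Sum.inr j) => Sum.inr j
  invFun s := match s with
    | Sum.inl none => none
    | Sum.inl (some u) => some (Sum.inl u)
    | Sum.inr j => some (Sum.inr j)
  left_inv o := by rcases o with _ | u | j <;> rfl
  right_inv s := by rcases s with (_ | u) | j <;> rfl

/-- `Option (υ ⊕ ρ) ≃ υ ⊕ Option ρ` -/
def eR (υ ρ : Type) : Option (υ ⊕ ρ) ≃ υ ⊕ Option ρ where
  toFun o := match o with
    | none => Sum.inr none
    | some (Sum.inl u) => Sum.inl u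
    | some (Sum.inr j) => Sum.inr (some j)
  invFun s := match s with
    | Sum.inr none => none
    | Sum.inl u => some (Sum.inl u)
    | Sum.inr (some j) => some (Sum.inr j)
  left_inv o := by rcases o with _ | u | j <;> rfl
  right_inv s := by rcases s with u | (_ | j) <;> rfl

@[simp] lemma eL_none : eL υ ρ none = Sum.inl none := rfl
@[simp] lemma eL_inl (u : υ) : eL υ ρ (some (Sum.inl u)) = Sum.inl (some u) := rfl
@[simp] lemma eL_inr (j : ρ) : eL υ ρ (some (Sum.inr j)) = Sum.inr j := rfl
@[simp] lemma eR_none : eR υ ρ none = Sum.inr none := rfl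
@[simp] lemma eR_inl (u : υ) : eR υ ρ (some (Sum.inl u)) = Sum.inl u := rfl
@[simp] lemma eR_inr (j : ρ) : eR υ ρ (some (Sum.inr j)) = Sum.inr (some j) := rfl

lemma red_some (M : Matrix κ κ ℝ) (y : Option υ → κ) (t t' : Option υ → Bool) (R C : ρ → κ) :
    ((red M y t t' R C).submatrix (eL υ ρ) (eL υ ρ)).submatrix some some =
      red M (y ∘ some) (t ∘ some) (t' ∘ some) R C := by
  ext a b
  rcases a with a | a <;> rcases b with b | b <;> simp [red]

lemma red_row (M : Matrix κ κ ℝ) (y : Option υ → κ) (t t' : Option υ → Bool) (R C : ρ → κ)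
    (h : t none = true) : (red M y t t' R C).det =
      (red M (y ∘ some) (t ∘ some) (t' ∘ some) R C).det := by
  rw [← det_submatrix_equiv_self (eL υ ρ), det_option_row, red_some]
  · simp [red, h]
  · intro i
    rcases i with i | i <;> simp [red, h]

lemma red_col (M : Matrix κ κ ℝ) (y : Option υ → κ) (t t' : Option υ → Bool) (R C : ρ → κ)
    (h : t' none = false) : (red M y t t' R C).det =
      (red M (y ∘ some) (t ∘ some) (t' ∘ some) R C).det := by
  rw [← det_submatrix_equiv_self (eL υ ρ), det_option_col, red_some]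
  · simp [red, h]
  · intro i
    rcases i with i | i <;> simp [red, h]

lemma red_rec (M : Matrix κ κ ℝ) (y : Option υ → κ) (t t' : Option υ → Bool) (R C : ρ → κ)
    (h : t none = false) (h' : t' none = true) : (red M y t t' R C).det =
      (red M (y ∘ some) (t ∘ some) (t' ∘ some) R C).det -
      (red M (y ∘ some) (t ∘ some) (t' ∘ some) (ext (y none) R) (ext (y none) C)).det := by
  set Z := (red M y t t' R C).submatrix (eL υ ρ) (eL υ ρ) with hZ
  set V := (red M (y ∘ some) (t ∘ some) (t' ∘ some) (ext (y none) R)
    (ext (y none) C)).submatrix (eR υ ρ) (eR υ ρ) with hV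
  have h1 : Z = updateCol V none (Pi.single none (1 : ℝ) + (-1 : ℝ) • fun i => V i none) := by
    ext i j
    rcases j with _ | j
    · rw [updateCol_self]
      rcases i with _ | i | i
      · simp [hZ, hV, red, h, h']; ring
      · by_cases ht : t (some i) = false <;> simp [hZ, hV, red, h', ht]
      · simp [hZ, hV, red, h']
    · rw [updateCol_ne (by simp)]
      rcases i with _ | i | i <;> rcases j with j | j
      · simp [hZ, hV, red, h]
        split_ifs <;> ring
      · simp [hZ, hV, red, h]
      · simp [hZ, hV, red]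
      · simp [hZ, hV, red]
      · simp [hZ, hV, red]
      · simp [hZ, hV, red]
  have h2 : (updateCol V none (Pi.single none (1 : ℝ))).det =
      (red M (y ∘ some) (t ∘ some) (t' ∘ some) R C).det := by
    rw [det_option_col]
    · rw [updateCol_self, Pi.single_eq_same, one_mul]
      congr 1
      ext i j
      rw [submatrix_apply, updateCol_ne (by simp)]
      rcases i with i | i <;> rcases j with j | j <;> simp [hV, red]
    · intro i
      rw [updateCol_self]
      simp
  have h3 : updateCol V none (fun i => V i none) = V := by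
    ext i j
    rcases j with _ | j
    · rw [updateCol_self]
    · rw [updateCol_ne (by simp)]
  rw [← det_submatrix_equiv_self (eL υ ρ) (red M y t t' R C), ← hZ, h1, det_updateCol_add,
    det_updateCol_smul, h2, h3, hV, det_submatrix_equiv_self]
  ring

end

lemma cc_pos {υ : Type} {q : ℝ} (hq : 0 ≤ q) (t t' : υ → Bool) (u : υ) : 0 < cc q t t' u := by
  unfold cc
  split_ifs <;> linarith

/-- **The reduced determinant is close to a minor of `M`.** -/
theorem red_close {κ : Type} {M : Matrix κ κ ℝ} {q : ℝ} (hG : Good q M) (hq : 0 ≤ q) (υ : Type)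
    [Finite υ] : ∀ [Fintype υ] [DecidableEq υ] (y : υ → κ) (t t' : υ → Bool) (ρ : Type)
      [Fintype ρ] [DecidableEq ρ] (R C : ρ → κ),
      |(red M y t t' R C).det - (M.submatrix R C).det| ≤
        (∏ u, cc q t t' u - 1) * |(M.submatrix R C).det| := by
  induction υ using Finite.induction_empty_option with
  | of_equiv e ih =>
    rename_i α β
    intro _ _ y t t' ρ _ _ R C
    classical
    haveI : Fintype α := Fintype.ofEquiv β e.symm
    have h := ih (y ∘ e) (t ∘ e) (t' ∘ e) ρ R C
    have h1 : (red M (y ∘ e) (t ∘ e) (t' ∘ e) R C) =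
        (red M y t t' R C).submatrix (Equiv.sumCongr e (Equiv.refl ρ))
          (Equiv.sumCongr e (Equiv.refl ρ)) := by
      ext a b
      rcases a with a | a <;> rcases b with b | b <;> simp [red]
    rw [h1, det_submatrix_equiv_self] at h
    have h2 : ∏ u, cc q (t ∘ e) (t' ∘ e) u = ∏ u, cc q t t' u :=
      Fintype.prod_equiv e _ _ (fun u => rfl)
    rw [h2] at h
    exact h
  | h_empty =>
    intro _ _ y t t' ρ _ _ R C
    have h1 : red M y t t' R C = (M.submatrix R C).submatrix (Equiv.emptySum PEmpty ρ)
        (Equiv.emptySum PEmpty ρ) := by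
      ext a b
      rcases a with a | a
      · exact a.elim
      rcases b with b | b
      · exact b.elim
      rfl
    rw [h1, det_submatrix_equiv_self]
    simp
  | h_option ih =>
    rename_i α _
    intro i1 i2 y t t' ρ _ _ R C
    classical
    have hi1 : i1 = instFintypeOption := Subsingleton.elim _ _
    subst hi1
    have hi2 : i2 = (fun a b => Option.instDecidableEq a b) := Subsingleton.elim _ _
    subst hi2
    have hP : (0 : ℝ) < ∏ u : α, cc q (t ∘ some) (t' ∘ some) u :=
      Finset.prod_pos fun u _ => cc_pos hq _ _ _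
    have hprod : ∏ u : Option α, cc q t t' u =
        cc q t t' none * ∏ u : α, cc q (t ∘ some) (t' ∘ some) u := Fintype.prod_option _
    rw [hprod]
    have h0 := ih (y ∘ some) (t ∘ some) (t' ∘ some) ρ R C
    rcases ht : t none with _ | _
    · rcases ht' : t' none with _ | _
      · have hc : cc q t t' none = 1 := by simp [cc, ht']
        have hdet : (red M y t t' R C).det = (red M (y ∘ some) (t ∘ some) (t' ∘ some) R C).det :=
          red_col M y t t' R C ht'
        rw [hdet, hc, one_mul]
        exact h0
      · have hc : cc q t t' none = 1 + q := by simp [cc, ht, ht']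
        have hdet : (red M y t t' R C).det = (red M (y ∘ some) (t ∘ some) (t' ∘ some) R C).det -
            (red M (y ∘ some) (t ∘ some) (t' ∘ some) (ext (y none) R) (ext (y none) C)).det :=
          red_rec M y t t' R C ht ht'
        rw [hdet, hc]
        have h1 := ih (y ∘ some) (t ∘ some) (t' ∘ some) (Option ρ) (ext (y none) R) (ext (y none) C)
        have h2 := hG.h2 R C (y none)
        set P := ∏ u : α, cc q (t ∘ some) (t' ∘ some) u
        set a := (red M (y ∘ some) (t ∘ some) (t' ∘ some) R C).det
        set b := (red M (y ∘ some) (t ∘ some) (t' ∘ some) (ext (y none) R) (ext (y none) C)).det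
        set D := (M.submatrix R C).det
        set D' := (M.submatrix (ext (y none) R) (ext (y none) C)).det
        have h3 : |b| ≤ P * |D'| := by
          have := abs_sub_abs_le_abs_sub b D'
          linarith
        have h4 : |b| ≤ P * (q * |D|) := h3.trans (by gcongr)
        calc |a - b - D| = |(a - D) - b| := by ring_nf
          _ ≤ |a - D| + |b| := abs_sub _ _
          _ ≤ (P - 1) * |D| + P * (q * |D|) := by linarith
          _ = _ := by ring
    · have hc : cc q t t' none = 1 := by simp [cc, ht]
      have hdet : (red M y t t' R C).det = (red M (y ∘ some) (t ∘ some) (t' ∘ some) R C).det :=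
        red_row M y t t' R C ht
      rw [hdet, hc, one_mul]
      exact h0

section
variable {κ υ ρ : Type} [DecidableEq κ] [Fintype υ] [DecidableEq υ] [Fintype ρ] [DecidableEq ρ]

/-- a standard parametrisation of a subset of `κ ⊕ κ` -/
def std (y : υ → κ) (t : υ → Bool) (R : ρ → κ) : υ ⊕ ρ → κ ⊕ κ :=
  Sum.elim (fun u => if t u = true then Sum.inr (y u) else Sum.inl (y u)) (fun i => Sum.inl (R i))

lemma dbl_red (M : Matrix κ κ ℝ) (y : υ → κ) (hy : Function.Injective y) (t t' : υ → Bool)
    (R C : ρ → κ) (hR : ∀ i, ∃ u, t u = true ∧ y u = R i) (hC : ∀ j, ∃ u, t' u = true ∧ y u = C j) :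
    ((dbl M).submatrix (std y t R) (std y t' C)).det = (red M y t t' R C).det := by
  choose uR hR1 hR2 using hR
  choose uC hC1 hC2 using hC
  have hX : (dbl M).submatrix (std y t R) (std y t' C) = fromBlocks
      (Matrix.of fun u u' => (if u = u' then (1 : ℝ) else 0) -
        (if t u = false ∧ t' u' = true then M (y u) (y u') else 0))
      (Matrix.of fun u j => if u = uC j then (1 : ℝ) else 0)
      (Matrix.of fun i u' => (if uR i = u' then (1 : ℝ) else 0) -
        if t' u' = true then M (R i) (y u') else 0)
      (Matrix.of fun i j => if uR i = uC j then (1 : ℝ) else 0) := by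
    ext a b
    rcases a with a | a <;> rcases b with b | b
    · rcases hta : t a with _ | _ <;> rcases htb : t' b with _ | _ <;>
        simp [std, dbl, hta, htb, one_apply, hy.eq_iff]
    · rcases hta : t a with _ | _ <;> simp [std, dbl, hta, one_apply, ← hC2, hy.eq_iff]
    · rcases htb : t' b with _ | _ <;> simp [std, dbl, htb, one_apply, ← hR2, hy.eq_iff]
    · simp [std, dbl, one_apply, ← hC2, ← hR2, hy.eq_iff]
  set L : Matrix (υ ⊕ ρ) (υ ⊕ ρ) ℝ := fromBlocks 1 0
    (Matrix.of fun i u => if uR i = u then (-1 : ℝ) else 0) 1 with hL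
  set U : Matrix (υ ⊕ ρ) (υ ⊕ ρ) ℝ := fromBlocks 1
    (Matrix.of fun u j => if u = uC j then (-1 : ℝ) else 0) 0 1 with hU
  have hLX : L * (dbl M).submatrix (std y t R) (std y t' C) = fromBlocks
      (Matrix.of fun u u' => (if u = u' then (1 : ℝ) else 0) -
        (if t u = false ∧ t' u' = true then M (y u) (y u') else 0))
      (Matrix.of fun u j => if u = uC j then (1 : ℝ) else 0)
      (Matrix.of fun i u' => if t' u' = true then - M (R i) (y u') else 0)
      0 := by
    rw [hX, hL, fromBlocks_multiply]
    congr 1
    · simp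
    · simp
    · ext i u'
      simp only [Matrix.add_apply, mul_apply, of_apply, ite_mul, zero_mul, Finset.sum_ite_eq,
        Finset.mem_univ, if_true, Matrix.one_mul]
      rw [hR1]
      by_cases h : t' u' = true <;> by_cases h2 : uR i = u' <;> simp [h, h2]
      ring
    · ext i j
      simp only [Matrix.add_apply, mul_apply, of_apply, ite_mul, zero_mul, Finset.sum_ite_eq,
        Finset.mem_univ, if_true, Matrix.one_mul, Matrix.zero_apply]
      by_cases h2 : uR i = uC j <;> simp [h2]
  have hLXU : L * (dbl M).submatrix (std y t R) (std y t' C) * U = red M y t t' R C := by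
    rw [hLX, hU, fromBlocks_multiply, red]
    congr 1
    · simp
    · ext u j
      simp only [Matrix.add_apply, mul_apply, of_apply, mul_ite, mul_zero, Finset.sum_ite_eq',
        Finset.mem_univ, if_true, Matrix.mul_one]
      rw [hC1, hC2]
      by_cases h : t u = false
      · simp [h]
      · simp [h]
    · simp
    · ext i j
      simp only [Matrix.add_apply, mul_apply, of_apply, mul_ite, mul_zero, Finset.sum_ite_eq',
        Finset.mem_univ, if_true, Matrix.mul_one, Matrix.zero_apply]
      rw [hC1, hC2]
      simp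
  have hdL : L.det = 1 := by rw [hL, det_fromBlocks_zero₁₂]; simp
  have hdU : U.det = 1 := by rw [hU, det_fromBlocks_zero₂₁]; simp
  rw [← hLXU, det_mul, det_mul, hdL, hdU]
  ring

end

end Pool.Agent.K3lead.SD
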