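import Pool.Agent.K3lead.SD.Basic

/-! Matrices all of whose minors have a good behaviour; duplication of an index. -/

set_option autoImplicit false

namespace Pool.Agent.K3lead.SD

open Matrix Finset Filter Topology

/-- put `j` in front of the family `R` -/
def ext {ι κ : Type} (j : κ) (R : ι → κ) : Option ι → κ := fun o => o.elim j R

@[simp] lemma ext_none {ι κ : Type} (j : κ) (R : ι → κ) : ext j R none = j := rfl
@[simp] lemma ext_some {ι κ : Type} (j : κ) (R : ι → κ) (i : ι) : ext j R (some i) = R i := rfl

/-- strictly sign-symmetric (up to common zeros), with a bound for the quotient of two minors which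
differ by one index, and with positive principal minors -/
structure Good (q : ℝ) {κ : Type} (M : Matrix κ κ ℝ) : Prop where
  g1 : ∀ (k : ℕ) (R C : Fin k → κ),
    ((M.submatrix R C).det = 0 ∧ (M.submatrix C R).det = 0) ∨
      0 < (M.submatrix R C).det * (M.submatrix C R).det
  g2 : ∀ (k : ℕ) (R C : Fin k → κ) (j : κ),
    |(M.submatrix (ext j R) (ext j C)).det| ≤ q * |(M.submatrix R C).det|
  g3 : ∀ (k : ℕ) (R : Fin k → κ), Function.Injective R → 0 < (M.submatrix R R).det

section
variable {q : ℝ} {κ : Type} {M : Matrix κ κ ℝ} {ι : Type} [Fintype ι] [DecidableEq ι]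

lemma sub_fin (R C : ι → κ) : (M.submatrix R C).det =
    (M.submatrix (R ∘ (Fintype.equivFin ι).symm) (C ∘ (Fintype.equivFin ι).symm)).det := by
  rw [← det_submatrix_equiv_self (Fintype.equivFin ι).symm (M.submatrix R C)]
  rfl

lemma Good.h1 (hG : Good q M) (R C : ι → κ) :
    ((M.submatrix R C).det = 0 ∧ (M.submatrix C R).det = 0) ∨
      0 < (M.submatrix R C).det * (M.submatrix C R).det := by
  rw [sub_fin R C, sub_fin C R]
  exact hG.g1 _ _ _

lemma Good.h1' (hG : Good q M) (R C : ι → κ) :
    0 ≤ (M.submatrix R C).det * (M.submatrix C R).det := by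
  rcases hG.h1 R C with h | h
  · rw [h.1, zero_mul]
  · exact h.le

lemma Good.zero (hG : Good q M) {R C : ι → κ} (h : (M.submatrix R C).det = 0) :
    (M.submatrix C R).det = 0 := by
  rcases hG.h1 R C with h1 | h1
  · exact h1.2
  · rw [h, zero_mul] at h1
    exact absurd h1 (lt_irrefl _)

lemma Good.h2 (hG : Good q M) (R C : ι → κ) (j : κ) :
    |(M.submatrix (ext j R) (ext j C)).det| ≤ q * |(M.submatrix R C).det| := by
  have h := hG.g2 _ (R ∘ (Fintype.equivFin ι).symm) (C ∘ (Fintype.equivFin ι).symm) j
  rw [← sub_fin R C] at h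
  refine le_trans (le_of_eq ?_) h
  rw [← det_submatrix_equiv_self (Equiv.optionCongr (Fintype.equivFin ι))
    (M.submatrix (ext j (R ∘ (Fintype.equivFin ι).symm)) (ext j (C ∘ (Fintype.equivFin ι).symm)))]
  congr 2
  ext a b
  rcases a with _ | a <;> rcases b with _ | b <;> simp [ext]

lemma Good.h3 (hG : Good q M) (R : ι → κ) (hR : Function.Injective R) :
    0 < (M.submatrix R R).det := by
  rw [sub_fin R R]
  exact hG.g3 _ _ (hR.comp (Equiv.injective _))

lemma Good.mono (hG : Good q M) {q' : ℝ} (h : q ≤ q') : Good q' M :=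
  ⟨hG.g1, fun k R C j => (hG.g2 k R C j).trans (mul_le_mul_of_nonneg_right h (abs_nonneg _)), hG.g3⟩

lemma Good.reindex {κ' : Type} (hG : Good q M) (e : κ' → κ) (he : Function.Injective e) :
    Good q (M.submatrix e e) := by
  refine ⟨fun k R C => ?_, fun k R C j => ?_, fun k R hR => ?_⟩
  · exact hG.g1 k (e ∘ R) (e ∘ C)
  · have h := hG.g2 k (e ∘ R) (e ∘ C) (e j)
    have h1 : ∀ R : Fin k → κ', e ∘ (ext j R) = ext (e j) (e ∘ R) := by
      intro R
      funext o
      rcases o with _ | o <;> rfl
    rw [submatrix_submatrix, submatrix_submatrix, h1, h1]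
    exact h
  · exact hG.g3 k (e ∘ R) (he.comp hR)

end

/-- duplication of the index `i₀`, with `ε` added in the new diagonal place -/
def dup {κ : Type} (M : Matrix κ κ ℝ) (i₀ : κ) (ε : ℝ) : Matrix (Option κ) (Option κ) ℝ :=
  fun a b => M (a.elim i₀ id) (b.elim i₀ id) + (if a = none ∧ b = none then ε else 0)

section
variable {κ : Type} {M : Matrix κ κ ℝ} {i₀ : κ} {ε : ℝ} {ι : Type} [Fintype ι] [DecidableEq ι]

/-- the projection to the old indices -/
def prj (i₀ : κ) (o : Option κ) : κ := o.elim i₀ id

@[simp] lemma prj_some (i : κ) : prj i₀ (some i) = i := rfl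
@[simp] lemma prj_none : prj i₀ none = i₀ := rfl

lemma dup_apply (a b : Option κ) :
    dup M i₀ ε a b = M (prj i₀ a) (prj i₀ b) + (if a = none ∧ b = none then ε else 0) := rfl

lemma dup_sub_of_not {R C : ι → Option κ} (h : (∀ i, R i ≠ none) ∨ (∀ i, C i ≠ none)) :
    (dup M i₀ ε).submatrix R C = M.submatrix (prj i₀ ∘ R) (prj i₀ ∘ C) := by
  ext i j
  rw [submatrix_apply, dup_apply, if_neg, add_zero]
  · rfl
  · rintro ⟨h1, h2⟩
    rcases h with h | h
    · exact h i h1
    · exact h j h2

/-- the new index in both places -/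
lemma dup_det (R C : ι → κ) :
    ((dup M i₀ ε).submatrix (ext none (some ∘ R)) (ext none (some ∘ C))).det =
      (M.submatrix (ext i₀ R) (ext i₀ C)).det + ε * (M.submatrix R C).det := by
  rw [det_add_corner (M.submatrix (ext i₀ R) (ext i₀ C)) _ ε]
  · rfl
  · simp [dup_apply]
  · intro i j h
    rcases i with _ | i <;> rcases j with _ | j
    · simp at h
    · simp [dup_apply]
    · simp [dup_apply]
    · simp [dup_apply]

end

/-- the pairs of maps which meet `none`, after a reordering -/
lemma exists_order {κ : Type} {k : ℕ} (R : Fin k → Option κ) (hR : Function.Injective R) (i : Fin k)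
    (hi : R i = none) : ∃ (e : Fin k ≃ Option (Fin (k - 1))) (R' : Fin (k - 1) → κ),
      Function.Injective R' ∧ R = (ext none (some ∘ R')) ∘ e := by
  obtain ⟨m, rfl⟩ : ∃ m, k = m + 1 := ⟨k - 1, by have := i.2; omega⟩
  have hne : ∀ j : Fin m, R (i.succAbove j) ≠ none := by
    intro j h
    rw [← hi] at h
    exact Fin.succAbove_ne i j (hR h)
  choose R' hR' using fun j => Option.ne_none_iff_exists'.1 (hne j)
  refine ⟨finSuccEquiv' i, R', ?_, ?_⟩
  · intro a b hab
    have h : R (i.succAbove a) = R (i.succAbove b) := by rw [hR', hR', hab]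
    exact Fin.succAbove_right_injective (hR h)
  · funext j
    rcases eq_or_ne j i with rfl | hj
    · simp [hi]
    · obtain ⟨l, rfl⟩ := Fin.exists_succAbove_eq hj
      simp [hR']

section
variable {κ : Type} [Finite κ] {M : Matrix κ κ ℝ} {q q' : ℝ}

/-- the condition on `ε` for one pair of maps -/
def Cond (M : Matrix κ κ ℝ) (q' : ℝ) (i₀ : κ) (ε : ℝ) {k : ℕ} (R C : Fin k → κ) : Prop :=
  (((M.submatrix (ext i₀ R) (ext i₀ C)).det + ε * (M.submatrix R C).det = 0 ∧
    (M.submatrix (ext i₀ C) (ext i₀ R)).det + ε * (M.submatrix C R).det = 0) ∨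
   0 < ((M.submatrix (ext i₀ R) (ext i₀ C)).det + ε * (M.submatrix R C).det) *
     ((M.submatrix (ext i₀ C) (ext i₀ R)).det + ε * (M.submatrix C R).det)) ∧
  ∀ j : κ, |(M.submatrix (ext i₀ (ext j R)) (ext i₀ (ext j C))).det +
      ε * (M.submatrix (ext j R) (ext j C)).det| ≤
    q' * |(M.submatrix (ext i₀ R) (ext i₀ C)).det + ε * (M.submatrix R C).det|

lemma eventually_cond (hG : Good q M) (hq : 0 ≤ q) (hqq : q < q') (i₀ : κ) {k : ℕ}
    (R C : Fin k → κ) : ∀ᶠ ε : ℝ in 𝓝[>] 0, Cond M q' i₀ ε R C := by
  have hswap : ∀ (j : κ), |(M.submatrix (ext i₀ (ext j R)) (ext i₀ (ext j C))).det| ≤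
      q * |(M.submatrix (ext i₀ R) (ext i₀ C)).det| := by
    intro j
    have h := hG.h2 (ext i₀ R) (ext i₀ C) j
    refine le_trans (le_of_eq ?_) h
    let e : Option (Option (Fin k)) ≃ Option (Option (Fin k)) :=
      Equiv.swap none (some none)
    rw [← det_submatrix_equiv_self e]
    congr 2
    have he : ∀ R : Fin k → κ, (ext i₀ (ext j R)) ∘ e = ext j (ext i₀ R) := by
      intro R
      funext o
      rcases o with _ | _ | o
      · simp [e]
      · simp [e]
      · have : e (some (some o)) = some (some o) := by
          apply Equiv.swap_apply_of_ne_of_ne <;> simp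
        simp [this]
    rw [submatrix_submatrix, he, he]
  set a := (M.submatrix (ext i₀ R) (ext i₀ C)).det with ha
  set b := (M.submatrix R C).det with hb
  set a' := (M.submatrix (ext i₀ C) (ext i₀ R)).det with ha'
  set b' := (M.submatrix C R).det with hb'
  have hbj : ∀ j, |(M.submatrix (ext j R) (ext j C)).det| ≤ q * |b| := fun j => hG.h2 R C j
  have h11 := hG.h1 (ext i₀ R) (ext i₀ C)
  have h12 := hG.h1 R C
  rw [← ha, ← ha'] at h11
  rw [← hb, ← hb'] at h12
  rcases eq_or_ne a 0 with h0 | h0
  · have h0' : a' = 0 := hG.zero h0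
    filter_upwards [self_mem_nhdsWithin] with ε hε
    have hε0 : 0 < ε := hε
    refine ⟨?_, ?_⟩
    · rw [← ha, ← hb, ← ha', ← hb', h0, h0', zero_add, zero_add]
      rcases h12 with h | h
      · left; rw [h.1, h.2]; simp
      · right
        have : ε * b * (ε * b') = ε ^ 2 * (b * b') := by ring
        rw [this]; positivity
    · intro j
      have h1 : (M.submatrix (ext i₀ (ext j R)) (ext i₀ (ext j C))).det = 0 := by
        have := hswap j
        rw [h0, abs_zero, mul_zero] at this
        exact abs_nonpos_iff.1 this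
      rw [h1, ← ha, ← hb, h0, zero_add, zero_add, abs_mul, abs_mul, abs_of_pos hε0]
      have h2 := hbj j
      calc ε * |(M.submatrix (ext j R) (ext j C)).det| ≤ ε * (q * |b|) := by gcongr
        _ ≤ ε * (q' * |b|) := by gcongr
        _ = _ := by ring
  · have h11' : 0 < a * a' := by
      rcases h11 with h | h
      · exact absurd h.1 h0
      · exact h
    have hcont : Tendsto (fun ε : ℝ => (a + ε * b) * (a' + ε * b')) (𝓝[>] 0) (𝓝 (a * a')) := by
      have : Continuous (fun ε : ℝ => (a + ε * b) * (a' + ε * b')) := by fun_prop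
      have h := this.tendsto 0
      simp only [zero_mul, add_zero] at h
      exact h.mono_left nhdsWithin_le_nhds
    have hsmall : ∀ᶠ ε : ℝ in 𝓝[>] 0, ε * ((q + q') * |b|) < (q' - q) * |a| := by
      have : Continuous (fun ε : ℝ => ε * ((q + q') * |b|)) := by fun_prop
      have h := this.tendsto 0
      rw [zero_mul] at h
      have hpos : 0 < (q' - q) * |a| := mul_pos (by linarith) (abs_pos.2 h0)
      exact (h.mono_left nhdsWithin_le_nhds).eventually_lt_const hpos
    filter_upwards [self_mem_nhdsWithin, hcont.eventually_const_lt h11', hsmall] with ε hε h1 h2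
    have hε0 : 0 < ε := hε
    refine ⟨Or.inr ?_, ?_⟩
    · rw [← ha, ← hb, ← ha', ← hb']; exact h1
    · intro j
      rw [← ha, ← hb]
      have h3 := hswap j
      have h4 := hbj j
      have h5 : |a| - ε * |b| ≤ |a + ε * b| := by
        have := abs_sub_abs_le_abs_sub a (-(ε * b))
        rw [abs_neg, abs_mul, abs_of_pos hε0, sub_neg_eq_add] at this
        exact this
      have hq' : 0 ≤ q' := by linarith
      calc |(M.submatrix (ext i₀ (ext j R)) (ext i₀ (ext j C))).det +
              ε * (M.submatrix (ext j R) (ext j C)).det|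
          ≤ |(M.submatrix (ext i₀ (ext j R)) (ext i₀ (ext j C))).det| +
              ε * |(M.submatrix (ext j R) (ext j C)).det| := by
            refine (abs_add_le _ _).trans ?_
            rw [abs_mul, abs_of_pos hε0]
        _ ≤ q * |a| + ε * (q * |b|) := by gcongr
        _ ≤ q' * (|a| - ε * |b|) := by nlinarith
        _ ≤ q' * |a + ε * b| := by gcongr

lemma ext_prj {ι : Type} (i₀ : κ) (j : Option κ) (R : ι → Option κ) :
    prj i₀ ∘ ext j R = ext (prj i₀ j) (prj i₀ ∘ R) := by
  funext o
  rcases o with _ | o <;> rfl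

/-- **Duplication of an index.** -/
theorem Good.dup (hG : Good q M) (hq : 0 ≤ q) (hqq : q < q') (i₀ : κ) :
    ∀ᶠ ε : ℝ in 𝓝[>] 0, Good q' (SD.dup M i₀ ε) := by
  classical
  haveI := Fintype.ofFinite κ
  have hall : ∀ᶠ ε : ℝ in 𝓝[>] 0, ∀ k : Fin (Fintype.card κ + 1), ∀ RC : (Fin k → κ) × (Fin k → κ),
      Cond M q' i₀ ε RC.1 RC.2 := by
    rw [eventually_all]
    intro k
    rw [eventually_all]
    intro RC
    exact eventually_cond hG hq hqq i₀ _ _
  have hsm : ∀ᶠ ε : ℝ in 𝓝[>] 0, ε < q' - q := by
    have : Tendsto (fun ε : ℝ => ε) (𝓝[>] 0) (𝓝 0) := tendsto_id.mono_left nhdsWithin_le_nhds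
    exact this.eventually_lt_const (by linarith)
  filter_upwards [hall, hsm, self_mem_nhdsWithin] with ε h1 h2 h3
  have hε : 0 < ε := h3
  have hcond : ∀ (k : ℕ) (R C : Fin k → κ), Function.Injective R → Cond M q' i₀ ε R C := by
    intro k R C hR
    have hk : k ≤ Fintype.card κ := by
      have := Fintype.card_le_of_injective R hR
      rwa [Fintype.card_fin] at this
    exact h1 ⟨k, by omega⟩ (R, C)
  refine ⟨?_, ?_, ?_⟩
  · intro k R C
    by_cases hR : Function.Injective R
    swap
    · exact Or.inl ⟨det_zero_of_not_injective_left hR, det_zero_of_not_injective_right hR⟩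
    by_cases hC : Function.Injective C
    swap
    · exact Or.inl ⟨det_zero_of_not_injective_right hC, det_zero_of_not_injective_left hC⟩
    by_cases hRn : ∀ i, R i ≠ none
    · rw [dup_sub_of_not (Or.inl hRn), dup_sub_of_not (Or.inr hRn)]
      exact hG.h1 _ _
    by_cases hCn : ∀ i, C i ≠ none
    · rw [dup_sub_of_not (Or.inl hCn), dup_sub_of_not (Or.inr hCn)]
      exact hG.h1 _ _
    push Not at hRn hCn
    obtain ⟨i, hi⟩ := hRn
    obtain ⟨j, hj⟩ := hCn
    obtain ⟨e₁, R', hR', he₁⟩ := exists_order R hR i hi
    obtain ⟨e₂, C', hC', he₂⟩ := exists_order C hC j hj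
    have hc := (hcond _ R' C' hR').1
    rw [← dup_det (M := M), ← dup_det (M := M)] at hc
    rw [he₁, he₂, ← submatrix_submatrix, ← submatrix_submatrix]
    rw [det_two_eq_zero, det_two_eq_zero, det_mul_det]
    exact hc
  · intro k R C j
    by_cases hR : Function.Injective (ext j R)
    swap
    · rw [det_zero_of_not_injective_left hR, abs_zero]
      have : 0 ≤ q' := by linarith
      positivity
    by_cases hC : Function.Injective (ext j C)
    swap
    · rw [det_zero_of_not_injective_right hC, abs_zero]
      have : 0 ≤ q' := by linarith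
      positivity
    rcases j with _ | j
    · -- the new index is added
      have hR0 : ∀ i, R i ≠ none := by
        intro i h
        have := @hR (some i) none (by simp [h])
        simp at this
      have hC0 : ∀ i, C i ≠ none := by
        intro i h
        have := @hC (some i) none (by simp [h])
        simp at this
      choose R' hR' using fun i => Option.ne_none_iff_exists'.1 (hR0 i)
      choose C' hC' using fun i => Option.ne_none_iff_exists'.1 (hC0 i)
      obtain rfl : R = some ∘ R' := funext hR'
      obtain rfl : C = some ∘ C' := funext hC'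
      rw [dup_det, dup_sub_of_not (Or.inl hR0)]
      have e1 : prj i₀ ∘ some ∘ R' = R' := rfl
      have e2 : prj i₀ ∘ some ∘ C' = C' := rfl
      rw [e1, e2]
      have h5 := hG.h2 R' C' i₀
      calc |(M.submatrix (ext i₀ R') (ext i₀ C')).det + ε * (M.submatrix R' C').det|
          ≤ |(M.submatrix (ext i₀ R') (ext i₀ C')).det| + ε * |(M.submatrix R' C').det| := by
            refine (abs_add_le _ _).trans ?_
            rw [abs_mul, abs_of_pos hε]
        _ ≤ q * |(M.submatrix R' C').det| + ε * |(M.submatrix R' C').det| := by gcongr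
        _ = (q + ε) * |(M.submatrix R' C').det| := by ring
        _ ≤ q' * |(M.submatrix R' C').det| := by gcongr; linarith
    · by_cases hn : (∀ i, R i ≠ none) ∨ (∀ i, C i ≠ none)
      · have hn' : (∀ i, ext (some j) R i ≠ none) ∨ (∀ i, ext (some j) C i ≠ none) := by
          rcases hn with h | h
          · left; intro o; rcases o with _ | o
            · simp
            · exact h o
          · right; intro o; rcases o with _ | o
            · simp
            · exact h o
        rw [dup_sub_of_not hn, dup_sub_of_not hn', ext_prj, ext_prj]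
        refine (hG.h2 _ _ _).trans ?_
        gcongr
      · push Not at hn
        obtain ⟨⟨i, hi⟩, ⟨l, hl⟩⟩ := hn
        have hRi : Function.Injective R := by
          intro a b hab
          have := @hR (some a) (some b) (by simpa using hab)
          simpa using this
        have hCi : Function.Injective C := by
          intro a b hab
          have := @hC (some a) (some b) (by simpa using hab)
          simpa using this
        obtain ⟨e₁, R', hR', he₁⟩ := exists_order R hRi i hi
        obtain ⟨e₂, C', hC', he₂⟩ := exists_order C hCi l hl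
        have hc := (hcond _ R' C' hR').2 j
        have hsw : ∀ (e : Fin k ≃ Option (Fin (k - 1))) (R : Fin k → Option κ)
            (R' : Fin (k - 1) → κ), R = ext none (some ∘ R') ∘ e →
            ext (some j) R = ext none (some ∘ (ext j R')) ∘
              ((Equiv.optionCongr e).trans (Equiv.swap none (some none))) := by
          intro e R R' hRR
          funext o
          rcases o with _ | o
          · simp
          · rw [hRR]
            rcases h : e o with _ | m
            · simp [h]
            · have : (Equiv.swap none (some none)) (some (some m)) = some (some m) := by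
                apply Equiv.swap_apply_of_ne_of_ne <;> simp
              simp [h, this]
        rw [hsw e₁ R R' he₁, hsw e₂ C C' he₂, ← submatrix_submatrix, abs_det_two, dup_det]
        rw [he₁, he₂, ← submatrix_submatrix, abs_det_two, dup_det]
        exact hc
  · intro k R hR
    by_cases hRn : ∀ i, R i ≠ none
    · rw [dup_sub_of_not (Or.inl hRn)]
      refine hG.h3 _ ?_
      choose R' hR' using fun i => Option.ne_none_iff_exists'.1 (hRn i)
      obtain rfl : R = some ∘ R' := funext hR'
      intro a b hab
      exact hR (congrArg some hab)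
    · push Not at hRn
      obtain ⟨i, hi⟩ := hRn
      obtain ⟨e₁, R', hR', he₁⟩ := exists_order R hR i hi
      rw [he₁, ← submatrix_submatrix, det_submatrix_equiv_self, dup_det]
      have hb : 0 < (M.submatrix R' R').det := hG.h3 _ hR'
      have ha : 0 ≤ (M.submatrix (ext i₀ R') (ext i₀ R')).det := by
        by_cases hinj : Function.Injective (ext i₀ R')
        · exact (hG.h3 _ hinj).le
        · rw [det_zero_of_not_injective_left hinj]
      positivity

end

end Pool.Agent.K3lead.SD
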