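import Pool.Agent.K3lead.SD.Unst

/-! Larger orders. -/

set_option autoImplicit false
set_option linter.unusedSectionVars false

namespace Pool.Agent.K3lead.SD

open Matrix Finset

/-- positive principal minors -/
def PP {κ : Type} (A : Matrix κ κ ℝ) : Prop :=
  ∀ (k : ℕ) (f : Fin k → κ), Function.Injective f → 0 < (A.submatrix f f).det

/-- sign symmetry up to the dispersal `d` -/
def SS {κ : Type} [DecidableEq κ] (d : ℕ) (A : Matrix κ κ ℝ) : Prop :=
  ∀ (k : ℕ) (α β : Finset κ) (f g : Fin k → κ), Function.Injective f → Function.Injective g →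
    Set.range f = α → Set.range g = β → (α \ β).card ≤ d → (β \ α).card ≤ d →
    0 ≤ (A.submatrix f g).det * (A.submatrix g f).det

/-- there is an unstable matrix of this kind -/
def QQ (d : ℕ) (κ : Type) [Fintype κ] [DecidableEq κ] : Prop :=
  ∃ A : Matrix κ κ ℝ, PP A ∧ SS d A ∧ ¬ Stable A

lemma QQ.equiv {d : ℕ} {κ κ' : Type} [Fintype κ] [DecidableEq κ] [Fintype κ'] [DecidableEq κ']
    (e : κ' ≃ κ) (h : QQ d κ) : QQ d κ' := by
  obtain ⟨A, h1, h2, h3⟩ := h
  refine ⟨A.submatrix e e, ?_, ?_, ?_⟩
  · intro k f hf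
    exact h1 k (e ∘ f) (e.injective.comp hf)
  · intro k α β f g hf hg hα hβ hc1 hc2
    refine h2 k (α.map e.toEmbedding) (β.map e.toEmbedding) (e ∘ f) (e ∘ g)
      (e.injective.comp hf) (e.injective.comp hg) ?_ ?_ ?_ ?_
    · rw [Set.range_comp, hα]; simp
    · rw [Set.range_comp, hβ]; simp
    · rw [← Finset.map_sdiff, Finset.card_map]; exact hc1
    · rw [← Finset.map_sdiff, Finset.card_map]; exact hc2
  · intro hst
    apply h3
    intro z hz
    apply hst
    rw [mem_spec] at hz ⊢
    have : scalar κ' z - (A.submatrix e e).map (algebraMap ℝ ℂ) =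
        (scalar κ z - A.map (algebraMap ℝ ℂ)).submatrix e e := by
      ext i j
      simp [scalar_apply, diagonal_apply, e.injective.eq_iff]
    rw [this, det_submatrix_equiv_self]
    exact hz

/-- one more index -/
def pad {κ : Type} (A : Matrix κ κ ℝ) : Matrix (Option κ) (Option κ) ℝ
  | none, none => 1
  | some i, some j => A i j
  | _, _ => 0

section
variable {κ : Type} [DecidableEq κ]

lemma pad_some {ι : Type} (A : Matrix κ κ ℝ) (R C : ι → κ) :
    (pad A).submatrix (some ∘ R) (some ∘ C) = A.submatrix R C := by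
  ext i j
  rfl

lemma pad_ext {ι : Type} [Fintype ι] [DecidableEq ι] (A : Matrix κ κ ℝ) (R C : ι → κ) :
    ((pad A).submatrix (ext none (some ∘ R)) (ext none (some ∘ C))).det =
      (A.submatrix R C).det := by
  rw [det_option_row]
  · rw [submatrix_apply, ext_none, ext_none]
    have : pad A none none = 1 := rfl
    rw [this, one_mul]
    rfl
  · intro i
    rfl

lemma pad_zero {k : ℕ} (A : Matrix κ κ ℝ) (R C : Fin k → Option κ) (i : Fin k) (hi : R i = none)
    (hC : ∀ j, C j ≠ none) : ((pad A).submatrix R C).det = 0 := by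
  refine det_eq_zero_of_row_eq_zero i fun j => ?_
  rw [submatrix_apply, hi]
  obtain ⟨x, hx⟩ := Option.ne_none_iff_exists'.1 (hC j)
  rw [hx]
  rfl

lemma range_of_some {k : ℕ} {R : Fin k → κ} {α : Finset (Option κ)}
    (h : Set.range (some ∘ R) = (α : Set (Option κ))) :
    Set.range R = (Finset.eraseNone α : Set κ) := by
  ext x
  rw [Finset.mem_coe, Finset.mem_eraseNone, ← Finset.mem_coe, ← h]
  constructor
  · rintro ⟨i, rfl⟩; exact ⟨i, rfl⟩
  · rintro ⟨i, hi⟩; exact ⟨i, by simpa using hi⟩

lemma range_of_ext {ι : Type} {R : ι → κ} {α : Finset (Option κ)}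
    (h : Set.range (ext none (some ∘ R)) = (α : Set (Option κ))) :
    Set.range R = (Finset.eraseNone α : Set κ) := by
  ext x
  rw [Finset.mem_coe, Finset.mem_eraseNone, ← Finset.mem_coe, ← h]
  constructor
  · rintro ⟨i, rfl⟩; exact ⟨some i, rfl⟩
  · rintro ⟨i, hi⟩
    rcases i with _ | i
    · simp at hi
    · exact ⟨i, by simpa using hi⟩

lemma card_erase {α β : Finset (Option κ)} {d : ℕ} (h : (α \ β).card ≤ d) :
    (Finset.eraseNone α \ Finset.eraseNone β).card ≤ d := by
  refine le_trans (Finset.card_le_card_of_injOn some ?_ ?_) h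
  · intro x hx
    rw [Finset.mem_coe, Finset.mem_sdiff, Finset.mem_eraseNone, Finset.mem_eraseNone] at hx
    rw [Finset.mem_coe, Finset.mem_sdiff]
    exact hx
  · intro a _ b _ hab
    exact Option.some_injective _ hab

variable [Fintype κ]

lemma QQ.option {d : ℕ} (h : QQ d κ) : QQ d (Option κ) := by
  obtain ⟨A, h1, h2, h3⟩ := h
  refine ⟨pad A, ?_, ?_, ?_⟩
  · intro k f hf
    by_cases hn : ∀ i, f i ≠ none
    · choose f' hf' using fun i => Option.ne_none_iff_exists'.1 (hn i)
      obtain rfl : f = some ∘ f' := funext hf'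
      rw [pad_some]
      exact h1 k f' (Function.Injective.of_comp hf)
    · push Not at hn
      obtain ⟨i, hi⟩ := hn
      obtain ⟨e, f', hf', he⟩ := exists_order f hf i hi
      rw [he, ← submatrix_submatrix, det_submatrix_equiv_self, pad_ext]
      exact h1 _ f' hf'
  · intro k α β f g hf hg hα hβ hc1 hc2
    by_cases hfn : ∀ i, f i ≠ none
    · by_cases hgn : ∀ i, g i ≠ none
      · choose f' hf' using fun i => Option.ne_none_iff_exists'.1 (hfn i)
        choose g' hg' using fun i => Option.ne_none_iff_exists'.1 (hgn i)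
        obtain rfl : f = some ∘ f' := funext hf'
        obtain rfl : g = some ∘ g' := funext hg'
        rw [pad_some, pad_some]
        exact h2 k (Finset.eraseNone α) (Finset.eraseNone β) f' g'
          (Function.Injective.of_comp hf) (Function.Injective.of_comp hg)
          (range_of_some hα) (range_of_some hβ) (card_erase hc1) (card_erase hc2)
      · push Not at hgn
        obtain ⟨i, hi⟩ := hgn
        rw [pad_zero A g f i hi hfn, mul_zero]
    · push Not at hfn
      obtain ⟨i, hi⟩ := hfn
      by_cases hgn : ∀ i, g i ≠ none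
      · rw [pad_zero A f g i hi hgn, zero_mul]
      · push Not at hgn
        obtain ⟨j, hj⟩ := hgn
        obtain ⟨e₁, f', hf', he₁⟩ := exists_order f hf i hi
        obtain ⟨e₂, g', hg', he₂⟩ := exists_order g hg j hj
        have hα' : Set.range (ext none (some ∘ f')) = (α : Set (Option κ)) := by
          rw [← hα, he₁, Set.range_comp, e₁.surjective.range_eq, Set.image_univ]
        have hβ' : Set.range (ext none (some ∘ g')) = (β : Set (Option κ)) := by
          rw [← hβ, he₂, Set.range_comp, e₂.surjective.range_eq, Set.image_univ]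
        rw [he₁, he₂, ← submatrix_submatrix, ← submatrix_submatrix, det_mul_det, pad_ext, pad_ext]
        exact h2 _ (Finset.eraseNone α) (Finset.eraseNone β) f' g' hf' hg'
          (range_of_ext hα') (range_of_ext hβ') (card_erase hc1) (card_erase hc2)
  · intro hst
    apply h3
    intro z hz
    apply hst
    rw [mem_spec] at hz ⊢
    have h5 : (scalar (Option κ) z - (pad A).map (algebraMap ℝ ℂ)).submatrix
        (Equiv.optionEquivSumPUnit.{0} κ).symm (Equiv.optionEquivSumPUnit.{0} κ).symm =
        fromBlocks (scalar κ z - A.map (algebraMap ℝ ℂ)) 0 0 (Matrix.of fun _ _ => z - 1) := by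
      ext i j
      rcases i with i | i <;> rcases j with j | j
      · simp [scalar_apply, diagonal_apply, pad]
      · simp [scalar_apply, diagonal_apply, pad]
      · simp [scalar_apply, diagonal_apply, pad]
      · simp [scalar_apply, diagonal_apply, pad]
    rw [← det_submatrix_equiv_self (Equiv.optionEquivSumPUnit.{0} κ).symm, h5,
      det_fromBlocks_zero₂₁, hz, zero_mul]

end

theorem QQ_all (n d : ℕ) (hd : 1 ≤ d) (hn : 900 * d ≤ n) : QQ d (Fin n) := by
  induction n, hn using Nat.le_induction with
  | base =>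
    obtain ⟨M, hG, hst⟩ := exists_good_unstable d hd
    have hd0 : (0 : ℝ) < d := by exact_mod_cast hd
    have h : QQ d (Fin (150 * d * 3) ⊕ Fin (150 * d * 3)) :=
      ⟨dbl M, fun k f hf => dbl_principal hG (by positivity) f hf,
        fun k α β f g hf hg hα hβ h1 h2 =>
          dbl_sign hG (by positivity) (pow_lt_two d hd) α β f g hf hg hα hβ h1 h2, hst⟩
    refine h.equiv (Fintype.equivOfCardEq ?_)
    simp only [Fintype.card_sum, Fintype.card_fin]
    ring
  | succ n hn ih => exact (ih.option).equiv finSuccEquivLast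

end Pool.Agent.K3lead.SD
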