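import Pool.Agent.K3lead.SD.Double

/-! Sign symmetry of `dbl M` for minors of small dispersal. -/

set_option autoImplicit false
set_option linter.unusedSectionVars false

namespace Pool.Agent.K3lead.SD

open Matrix Finset

lemma exists_factor {ι ι' X : Type} (f : ι → X) (h : ι' → X) (hf : Function.Injective f)
    (hh : Function.Injective h) (hr : Set.range f = Set.range h) :
    ∃ e : ι ≃ ι', f = h ∘ e := by
  refine ⟨(Equiv.ofInjective f hf).trans ((Equiv.setCongr hr).trans (Equiv.ofInjective h hh).symm),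
    ?_⟩
  funext i
  have := (Equiv.apply_ofInjective_symm hh ((Equiv.setCongr hr) (Equiv.ofInjective f hf i)))
  simp only [Function.comp_apply, Equiv.trans_apply]
  rw [this]
  rfl

section
variable {κ : Type} [Fintype κ] [DecidableEq κ]

lemma row_zero {k : ℕ} (M : Matrix κ κ ℝ) (f g : Fin k → κ ⊕ κ) (y : κ)
    (hy : Sum.inr y ∈ Set.range f) (h1 : Sum.inl y ∉ Set.range g) (h2 : Sum.inr y ∉ Set.range g) :
    ((dbl M).submatrix f g).det = 0 := by
  obtain ⟨i, hi⟩ := hy
  refine det_eq_zero_of_row_eq_zero i fun j => ?_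
  rw [submatrix_apply, hi]
  rcases h : g j with x | x
  · have hx : y ≠ x := fun hx => h1 ⟨j, by rw [h, hx]⟩
    simp [dbl, one_apply, hx]
  · have hx : y ≠ x := fun hx => h2 ⟨j, by rw [h, hx]⟩
    simp [dbl, one_apply, hx]

lemma col_zero {k : ℕ} (M : Matrix κ κ ℝ) (f g : Fin k → κ ⊕ κ) (y : κ)
    (hy : Sum.inl y ∈ Set.range f) (h1 : Sum.inl y ∉ Set.range g) (h2 : Sum.inr y ∉ Set.range g) :
    ((dbl M).submatrix g f).det = 0 := by
  obtain ⟨i, hi⟩ := hy
  refine det_eq_zero_of_column_eq_zero i fun j => ?_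
  rw [submatrix_apply, hi]
  rcases h : g j with x | x
  · have hx : x ≠ y := fun hx => h1 ⟨j, by rw [h, hx]⟩
    simp [dbl, one_apply, hx]
  · have hx : x ≠ y := fun hx => h2 ⟨j, by rw [h, hx]⟩
    simp [dbl, one_apply, hx]

lemma std_inj {υ ρ : Type} (y : υ → κ) (hy : Function.Injective y) (t : υ → Bool) (R : ρ → κ)
    (hR : Function.Injective R) (h : ∀ i, ∃ u, t u = true ∧ y u = R i) :
    Function.Injective (std y t R) := by
  have key : ∀ (u : υ) (i : ρ), std y t R (Sum.inl u) ≠ std y t R (Sum.inr i) := by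
    intro u i hui
    obtain ⟨u', h1, h2⟩ := h i
    by_cases ht : t u = true
    · simp [std, ht] at hui
    · simp only [std, Sum.elim_inl, ht, Bool.false_eq_true, if_false, Sum.elim_inr,
        Sum.inl.injEq] at hui
      rw [← h2] at hui
      rw [hy hui] at ht
      exact ht h1
  rintro (u | i) (u' | i') hab
  · congr 1
    apply hy
    by_cases ht : t u = true <;> by_cases ht' : t u' = true <;> simp [std, ht, ht'] at hab
    · exact hab
    · exact hab
  · exact absurd hab (key _ _)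
  · exact absurd hab.symm (key _ _)
  · congr 1
    apply hR
    simpa [std] using hab

/-- a parametrisation of the set `range f`, if the set of the indices is `Y` -/
lemma std_range {υ ρ : Type} {k : ℕ} (f : Fin k → κ ⊕ κ) (y : υ → κ)
    (hy : ∀ x, (∃ u, y u = x) ↔ (Sum.inl x ∈ Set.range f ∨ Sum.inr x ∈ Set.range f))
    (t : υ → Bool) (ht : ∀ u, t u = true ↔ Sum.inr (y u) ∈ Set.range f) (R : ρ → κ)
    (hR : ∀ x, (∃ i, R i = x) ↔ (Sum.inl x ∈ Set.range f ∧ Sum.inr x ∈ Set.range f)) :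
    Set.range (std y t R) = Set.range f := by
  ext s
  constructor
  · rintro ⟨u | i, rfl⟩
    · have h := (hy (y u)).1 ⟨u, rfl⟩
      by_cases htu : t u = true
      · simp only [std, Sum.elim_inl, htu, if_true]
        exact (ht u).1 htu
      · simp only [std, Sum.elim_inl, htu, Bool.false_eq_true, if_false]
        rcases h with h | h
        · exact h
        · exact absurd ((ht u).2 h) htu
    · exact ((hR (R i)).1 ⟨i, rfl⟩).1
  · intro hs
    rcases s with x | x
    · obtain ⟨u, hu⟩ := (hy x).2 (Or.inl hs)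
      by_cases htu : t u = true
      · have h2 : Sum.inr x ∈ Set.range f := by rw [← hu]; exact (ht u).1 htu
        obtain ⟨i, hi⟩ := (hR x).2 ⟨hs, h2⟩
        exact ⟨Sum.inr i, by simp [std, hi]⟩
      · exact ⟨Sum.inl u, by simp [std, htu, hu]⟩
    · obtain ⟨u, hu⟩ := (hy x).2 (Or.inr hs)
      have htu : t u = true := (ht u).2 (by rw [hu]; exact hs)
      exact ⟨Sum.inl u, by simp [std, htu, hu]⟩

lemma prod_cc_le {υ : Type} [Fintype υ] {q : ℝ} (hq : 0 ≤ q) (t t' : υ → Bool) (d : ℕ)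
    (h : (univ.filter fun u => t u = false ∧ t' u = true).card ≤ d) :
    ∏ u, cc q t t' u ≤ (1 + q) ^ d := by
  unfold cc
  rw [Finset.prod_ite, Finset.prod_const, Finset.prod_const_one, mul_one]
  exact pow_le_pow_right₀ (by linarith) h

/-- the sign of a number close to `D` -/
lemma mul_pos_of_close {W D P : ℝ} (h : |W - D| ≤ (P - 1) * |D|) (hP : P < 2) (hD : D ≠ 0) :
    0 < W * D := by
  have h1 : |W - D| < |D| := by
    have := abs_pos.2 hD
    nlinarith
  rcases lt_or_gt_of_ne hD with hD | hD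
  · rw [abs_of_neg hD] at h1
    have := (abs_lt.1 h1).2
    nlinarith
  · rw [abs_of_pos hD] at h1
    have := (abs_lt.1 h1).1
    nlinarith

/-- **Sign symmetry of `dbl M` up to the dispersal `d`.** -/
theorem dbl_sign {M : Matrix κ κ ℝ} {q : ℝ} (hG : Good q M) (hq : 0 ≤ q) {d : ℕ}
    (hd : (1 + q) ^ d < 2) {k : ℕ} (α β : Finset (κ ⊕ κ)) (f g : Fin k → κ ⊕ κ)
    (hf : Function.Injective f) (hg : Function.Injective g)
    (hα : Set.range f = α) (hβ : Set.range g = β)
    (h1 : (α \ β).card ≤ d) (h2 : (β \ α).card ≤ d) :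
    0 ≤ ((dbl M).submatrix f g).det * ((dbl M).submatrix g f).det := by
  classical
  by_cases hz1 : ((dbl M).submatrix f g).det = 0
  · rw [hz1, zero_mul]
  by_cases hz2 : ((dbl M).submatrix g f).det = 0
  · rw [hz2, mul_zero]
  have hfg : ∀ x, (Sum.inl x ∈ Set.range f ∨ Sum.inr x ∈ Set.range f) →
      (Sum.inl x ∈ Set.range g ∨ Sum.inr x ∈ Set.range g) := by
    intro x hx
    by_contra hcon
    push Not at hcon
    rcases hx with hx | hx
    · exact hz2 (col_zero M f g x hx hcon.1 hcon.2)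
    · exact hz1 (row_zero M f g x hx hcon.1 hcon.2)
  have hgf : ∀ x, (Sum.inl x ∈ Set.range g ∨ Sum.inr x ∈ Set.range g) →
      (Sum.inl x ∈ Set.range f ∨ Sum.inr x ∈ Set.range f) := by
    intro x hx
    by_contra hcon
    push Not at hcon
    rcases hx with hx | hx
    · exact hz1 (col_zero M g f x hx hcon.1 hcon.2)
    · exact hz2 (row_zero M g f x hx hcon.1 hcon.2)
  -- the index sets
  let Yf : Finset κ := univ.filter fun x => Sum.inl x ∈ Set.range f ∨ Sum.inr x ∈ Set.range f
  let Rf : Finset κ := univ.filter fun x => Sum.inl x ∈ Set.range f ∧ Sum.inr x ∈ Set.range f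
  let Rg : Finset κ := univ.filter fun x => Sum.inl x ∈ Set.range g ∧ Sum.inr x ∈ Set.range g
  let y : Yf → κ := Subtype.val
  have hy : Function.Injective y := Subtype.val_injective
  let t : Yf → Bool := fun u => decide (Sum.inr (y u) ∈ Set.range f)
  let t' : Yf → Bool := fun u => decide (Sum.inr (y u) ∈ Set.range g)
  let R : Rf → κ := Subtype.val
  let C₀ : Rg → κ := Subtype.val
  have hyf : ∀ x, (∃ u, y u = x) ↔ (Sum.inl x ∈ Set.range f ∨ Sum.inr x ∈ Set.range f) := by
    intro x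
    constructor
    · rintro ⟨u, rfl⟩
      exact (Finset.mem_filter.1 u.2).2
    · intro h
      exact ⟨⟨x, Finset.mem_filter.2 ⟨Finset.mem_univ _, h⟩⟩, rfl⟩
  have hyg : ∀ x, (∃ u, y u = x) ↔ (Sum.inl x ∈ Set.range g ∨ Sum.inr x ∈ Set.range g) :=
    fun x => (hyf x).trans ⟨hfg x, hgf x⟩
  have hRf : ∀ x, (∃ i, R i = x) ↔ (Sum.inl x ∈ Set.range f ∧ Sum.inr x ∈ Set.range f) := by
    intro x
    constructor
    · rintro ⟨u, rfl⟩
      exact (Finset.mem_filter.1 u.2).2
    · intro h
      exact ⟨⟨x, Finset.mem_filter.2 ⟨Finset.mem_univ _, h⟩⟩, rfl⟩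
  have hRg : ∀ x, (∃ i, C₀ i = x) ↔ (Sum.inl x ∈ Set.range g ∧ Sum.inr x ∈ Set.range g) := by
    intro x
    constructor
    · rintro ⟨u, rfl⟩
      exact (Finset.mem_filter.1 u.2).2
    · intro h
      exact ⟨⟨x, Finset.mem_filter.2 ⟨Finset.mem_univ _, h⟩⟩, rfl⟩
  have ht : ∀ u, t u = true ↔ Sum.inr (y u) ∈ Set.range f := fun u => decide_eq_true_iff
  have ht' : ∀ u, t' u = true ↔ Sum.inr (y u) ∈ Set.range g := fun u => decide_eq_true_iff
  have hR1 : ∀ i, ∃ u, t u = true ∧ y u = R i := by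
    intro i
    have h := (hRf (R i)).1 ⟨i, rfl⟩
    obtain ⟨u, hu⟩ := (hyf (R i)).2 (Or.inl h.1)
    exact ⟨u, (ht u).2 (by rw [hu]; exact h.2), hu⟩
  have hC1 : ∀ i, ∃ u, t' u = true ∧ y u = C₀ i := by
    intro i
    have h := (hRg (C₀ i)).1 ⟨i, rfl⟩
    obtain ⟨u, hu⟩ := (hyg (C₀ i)).2 (Or.inl h.1)
    exact ⟨u, (ht' u).2 (by rw [hu]; exact h.2), hu⟩
  have hsf := std_inj y hy t R Subtype.val_injective hR1
  have hsg := std_inj y hy t' C₀ Subtype.val_injective hC1
  obtain ⟨e₁, he₁⟩ := exists_factor f _ hf hsf (std_range f y hyf t ht R hRf).symm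
  obtain ⟨e₀, he₀⟩ := exists_factor g _ hg hsg (std_range g y hyg t' ht' C₀ hRg).symm
  -- the bijection of the second index sets
  have hcard : Fintype.card Rf = Fintype.card Rg := by
    have ha := Fintype.card_congr e₁
    have hb := Fintype.card_congr e₀
    rw [Fintype.card_sum] at ha hb
    omega
  let θ : Rf ≃ Rg := Fintype.equivOfCardEq hcard
  let C : Rf → κ := C₀ ∘ θ
  have hC : ∀ i, ∃ u, t' u = true ∧ y u = C i := fun i => hC1 (θ i)
  have hstd : std y t' C₀ = std y t' C ∘ (Equiv.sumCongr (Equiv.refl _) θ.symm) := by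
    funext s
    rcases s with s | s
    · simp [std]
    · simp [std, C]
  let e₂ : Fin k ≃ Yf ⊕ Rf := e₀.trans (Equiv.sumCongr (Equiv.refl _) θ.symm)
  have he₂ : g = std y t' C ∘ e₂ := by
    rw [he₀, hstd]
    rfl
  rw [he₁, he₂, ← submatrix_submatrix, ← submatrix_submatrix, det_mul_det,
    dbl_red M y hy t t' R C hR1 hC, dbl_red M y hy t' t C R hC hR1]
  -- the two reduced determinants
  have hcl1 := red_close hG hq Yf y t t' Rf R C
  have hcl2 := red_close hG hq Yf y t' t Rf C R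
  have hP1 : ∏ u, cc q t t' u < 2 := by
    refine lt_of_le_of_lt (prod_cc_le hq t t' d ?_) hd
    refine le_trans (Finset.card_le_card_of_injOn (fun u => (Sum.inr (y u) : κ ⊕ κ)) ?_ ?_) h2
    · intro u hu
      have hu' := (Finset.mem_filter.1 hu).2
      rw [Finset.mem_coe, Finset.mem_sdiff, ← Finset.mem_coe, ← Finset.mem_coe, ← hα, ← hβ]
      exact ⟨(ht' u).1 hu'.2, fun h => by rw [(ht u).2 h] at hu'; simp at hu'⟩
    · intro u _ v _ huv
      exact hy (Sum.inr_injective huv)
  have hP2 : ∏ u, cc q t' t u < 2 := by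
    refine lt_of_le_of_lt (prod_cc_le hq t' t d ?_) hd
    refine le_trans (Finset.card_le_card_of_injOn (fun u => (Sum.inr (y u) : κ ⊕ κ)) ?_ ?_) h1
    · intro u hu
      have hu' := (Finset.mem_filter.1 hu).2
      rw [Finset.mem_coe, Finset.mem_sdiff, ← Finset.mem_coe, ← Finset.mem_coe, ← hα, ← hβ]
      exact ⟨(ht u).1 hu'.2, fun h => by rw [(ht' u).2 h] at hu'; simp at hu'⟩
    · intro u _ v _ huv
      exact hy (Sum.inr_injective huv)
  rcases hG.h1 R C with h0 | h0
  · rw [h0.1] at hcl1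
    rw [abs_zero, mul_zero, sub_zero] at hcl1
    rw [abs_nonpos_iff.1 hcl1, zero_mul]
  · have hD1 : (M.submatrix R C).det ≠ 0 := left_ne_zero_of_mul h0.ne'
    have hD2 : (M.submatrix C R).det ≠ 0 := right_ne_zero_of_mul h0.ne'
    have hw1 := mul_pos_of_close hcl1 hP1 hD1
    have hw2 := mul_pos_of_close hcl2 hP2 hD2
    have hw := mul_pos hw1 hw2
    have : (red M y t t' R C).det * (M.submatrix R C).det *
        ((red M y t' t C R).det * (M.submatrix C R).det) =
        ((red M y t t' R C).det * (red M y t' t C R).det) *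
          ((M.submatrix R C).det * (M.submatrix C R).det) := by ring
    rw [this] at hw
    exact ((mul_pos_iff_of_pos_right h0).1 hw).le

/-- **The principal minors of `dbl M` are positive.** -/
theorem dbl_principal {M : Matrix κ κ ℝ} {q : ℝ} (hG : Good q M) (hq : 0 ≤ q) {k : ℕ}
    (f : Fin k → κ ⊕ κ) (hf : Function.Injective f) : 0 < ((dbl M).submatrix f f).det := by
  classical
  let Yf : Finset κ := univ.filter fun x => Sum.inl x ∈ Set.range f ∨ Sum.inr x ∈ Set.range f
  let Rf : Finset κ := univ.filter fun x => Sum.inl x ∈ Set.range f ∧ Sum.inr x ∈ Set.range f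
  let y : Yf → κ := Subtype.val
  have hy : Function.Injective y := Subtype.val_injective
  let t : Yf → Bool := fun u => decide (Sum.inr (y u) ∈ Set.range f)
  let R : Rf → κ := Subtype.val
  have hyf : ∀ x, (∃ u, y u = x) ↔ (Sum.inl x ∈ Set.range f ∨ Sum.inr x ∈ Set.range f) := by
    intro x
    constructor
    · rintro ⟨u, rfl⟩
      exact (Finset.mem_filter.1 u.2).2
    · intro h
      exact ⟨⟨x, Finset.mem_filter.2 ⟨Finset.mem_univ _, h⟩⟩, rfl⟩
  have hRf : ∀ x, (∃ i, R i = x) ↔ (Sum.inl x ∈ Set.range f ∧ Sum.inr x ∈ Set.range f) := by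
    intro x
    constructor
    · rintro ⟨u, rfl⟩
      exact (Finset.mem_filter.1 u.2).2
    · intro h
      exact ⟨⟨x, Finset.mem_filter.2 ⟨Finset.mem_univ _, h⟩⟩, rfl⟩
  have ht : ∀ u, t u = true ↔ Sum.inr (y u) ∈ Set.range f := fun u => decide_eq_true_iff
  have hR1 : ∀ i, ∃ u, t u = true ∧ y u = R i := by
    intro i
    have h := (hRf (R i)).1 ⟨i, rfl⟩
    obtain ⟨u, hu⟩ := (hyf (R i)).2 (Or.inl h.1)
    exact ⟨u, (ht u).2 (by rw [hu]; exact h.2), hu⟩
  have hsf := std_inj y hy t R Subtype.val_injective hR1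
  obtain ⟨e₁, he₁⟩ := exists_factor f _ hf hsf (std_range f y hyf t ht R hRf).symm
  rw [he₁, ← submatrix_submatrix, det_submatrix_equiv_self, dbl_red M y hy t t R R hR1 hR1]
  have hcl := red_close hG hq Yf y t t Rf R R
  have hP : ∏ u, cc q t t u = 1 := by
    refine Finset.prod_eq_one fun u _ => ?_
    unfold cc
    rw [if_neg]
    rintro ⟨h1, h2⟩
    rw [h1] at h2
    exact absurd h2 (by simp)
  rw [hP, sub_self, zero_mul] at hcl
  have := sub_eq_zero.1 (abs_nonpos_iff.1 hcl)
  rw [this]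
  exact hG.h3 R Subtype.val_injective

end

end Pool.Agent.K3lead.SD
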