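import Pool.Agent.K3lead.SD.Base

/-! Instability. -/

set_option autoImplicit false
set_option linter.unusedSectionVars false

namespace Pool.Agent.K3lead.SD

open Matrix Finset Filter Topology Complex

/-- every complex eigenvalue has a positive real part -/
def Stable {κ : Type} [Fintype κ] [DecidableEq κ] (A : Matrix κ κ ℝ) : Prop :=
  ∀ z ∈ spectrum ℂ (A.map (algebraMap ℝ ℂ)), 0 < z.re

section
variable {κ : Type} [Fintype κ] [DecidableEq κ]

lemma mem_spec {A : Matrix κ κ ℂ} {z : ℂ} : z ∈ spectrum ℂ A ↔ (scalar κ z - A).det = 0 := by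
  rw [← eval_charpoly, Matrix.mem_spectrum_iff_isRoot_charpoly]
  rfl

lemma det_lower {A : Matrix κ κ ℝ} (hA : Stable A) {w : ℂ} (hw : w.re < 0) :
    (-w.re) ^ Fintype.card κ ≤ ‖(scalar κ w - A.map (algebraMap ℝ ℂ)).det‖ := by
  rw [← eval_charpoly]
  set p := (A.map (algebraMap ℝ ℂ)).charpoly with hp
  have hm : p.Monic := charpoly_monic _
  have hs : p.Splits := IsAlgClosed.splits p
  rw [hs.eval_eq_prod_roots_of_monic hm]
  have hcard : p.roots.card = Fintype.card κ := by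
    rw [← hs.natDegree_eq_card_roots, charpoly_natDegree_eq_dim]
  have hr : ∀ r ∈ p.roots, -w.re ≤ ‖w - r‖ := by
    intro r hr
    have h1 : r ∈ spectrum ℂ (A.map (algebraMap ℝ ℂ)) := by
      rw [Matrix.mem_spectrum_iff_isRoot_charpoly]
      exact (Polynomial.mem_roots'.1 hr).2
    have h2 := hA r h1
    have h3 := Complex.abs_re_le_norm (w - r)
    have h4 := neg_abs_le (w - r).re
    rw [sub_re] at h4 h3
    linarith
  rw [← hcard]
  clear_value p
  generalize p.roots = s at hr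
  clear hp hm hs hcard
  induction s using Multiset.induction_on with
  | empty => simp
  | cons a s ih =>
    rw [Multiset.map_cons, Multiset.prod_cons, Multiset.card_cons, pow_succ, norm_mul, mul_comm]
    have h1 := hr a (Multiset.mem_cons_self a s)
    have h2 := ih (fun r hr' => hr r (Multiset.mem_cons_of_mem hr'))
    have h3 : 0 ≤ -w.re := by linarith
    exact mul_le_mul h1 h2 (pow_nonneg h3 _) (norm_nonneg _)

end

/-- the eigenvalue -/
lemma exists_sqrt {ρ : ℝ} (hρ : 1.305 ≤ ρ) : ∃ z : ℂ, 1 < z.re ∧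
    z ^ 2 = 1 - ρ * (20 - 15 * (-1 / 2 + (Real.sqrt 3 / 2 : ℝ) * I) -
      4 * (-1 / 2 + (Real.sqrt 3 / 2 : ℝ) * I) ^ 2) := by
  have h3 : Real.sqrt 3 ^ 2 = 3 := Real.sq_sqrt (by norm_num)
  obtain ⟨z, hz⟩ := IsAlgClosed.exists_pow_nat_eq (1 - (ρ : ℂ) *
    (20 - 15 * (-1 / 2 + (Real.sqrt 3 / 2 : ℝ) * I) -
      4 * (-1 / 2 + (Real.sqrt 3 / 2 : ℝ) * I) ^ 2)) (n := 2) (by norm_num)
  have hre : z.re ^ 2 - z.im ^ 2 = 1 - 59 / 2 * ρ := by
    have := congrArg Complex.re hz
    simp [pow_two] at this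
    nlinarith
  have him : 2 * (z.re * z.im) = ρ * (11 * (Real.sqrt 3 / 2)) := by
    have := congrArg Complex.im hz
    simp [pow_two] at this
    nlinarith
  have hx : 1 < z.re ^ 2 := by
    by_contra hcon
    push Not at hcon
    have h1 : z.im ^ 2 ≤ 59 / 2 * ρ := by nlinarith
    have h2 : 4 * (z.re ^ 2 * z.im ^ 2) = ρ ^ 2 * (121 * (3 / 4)) := by
      have : (2 * (z.re * z.im)) ^ 2 = (ρ * (11 * (Real.sqrt 3 / 2))) ^ 2 := by rw [him]
      nlinarith
    have h4 : z.re ^ 2 * z.im ^ 2 ≤ 1 * (59 / 2 * ρ) :=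
      mul_le_mul hcon h1 (sq_nonneg _) (by norm_num)
    nlinarith
  rcases le_or_gt 0 z.re with h | h
  · exact ⟨z, by nlinarith, hz⟩
  · refine ⟨-z, ?_, ?_⟩
    · rw [neg_re]; nlinarith
    · rw [neg_sq]; exact hz

/-- the cube root of unity -/
noncomputable def om : ℂ := -1 / 2 + (Real.sqrt 3 / 2 : ℝ) * I

lemma om_sq : om ^ 2 = -1 - om := by
  have h3 : Real.sqrt 3 ^ 2 = 3 := Real.sq_sqrt (by norm_num)
  apply Complex.ext
  · simp [om, pow_two]; nlinarith
  · simp [om, pow_two]; ring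

lemma om_cube : om ^ 3 = 1 := by
  rw [pow_succ, om_sq, sub_mul, ← pow_two, om_sq]; ring

/-- powers -/
noncomputable def ev (i : Fin 3) : ℂ := om ^ (i : ℕ)

lemma N_ev (i : Fin 3) : ∑ j, ((N i j : ℝ) : ℂ) * ev j = (20 - 15 * om - 4 * om ^ 2) * ev i := by
  have h1 := om_sq
  have h2 := om_cube
  fin_cases i <;> simp [Fin.sum_univ_three, N_apply, NZ, ev]
  · ring
  · linear_combination (4 : ℂ) * h2
  · linear_combination (15 + 4 * om) * h2

lemma sum_c3 (r : ℕ) (F : Fin 3 → ℂ) : ∑ j : Fin (r * 3), F (c3 j) = r * ∑ c, F c := by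
  rw [← Equiv.sum_comp finProdFinEquiv, Fintype.sum_prod_type]
  have h : ∀ (a : Fin r) (b : Fin 3), c3 (finProdFinEquiv (a, b) : ℕ) = b := by
    intro a b
    apply Fin.ext
    simp only [c3, finProdFinEquiv_apply_val]
    have := b.2
    omega
  simp_rw [h]
  simp

lemma blow_ev (s : ℝ) (r : ℕ) (i : Fin (r * 3)) :
    ∑ j, ((blow s (r * 3) 0 i j : ℝ) : ℂ) * ev (c3 j) =
      ((s * r : ℝ) : ℂ) * (20 - 15 * om - 4 * om ^ 2) * ev (c3 i) := by
  have h : ∀ j : Fin (r * 3), ((blow s (r * 3) 0 i j : ℝ) : ℂ) * ev (c3 j) =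
      s * (((N (c3 i) (c3 j) : ℝ) : ℂ) * ev (c3 j)) := by
    intro j
    simp [blow]
    ring
  simp_rw [h]
  rw [← Finset.mul_sum, sum_c3 r (fun c => ((N (c3 i) c : ℝ) : ℂ) * ev c), N_ev]
  push_cast
  ring

/-- `1 - z` is an eigenvalue without the perturbation -/
lemma det_zero (s : ℝ) (r : ℕ) (hr : 0 < r) (z : ℂ)
    (hz : z ^ 2 = 1 - ((s * r : ℝ) : ℂ) * (20 - 15 * om - 4 * om ^ 2)) :
    (scalar _ (1 - z) - (dbl (blow s (r * 3) 0)).map (algebraMap ℝ ℂ)).det = 0 := by
  rw [← exists_mulVec_eq_zero_iff]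
  let v : Fin (r * 3) ⊕ Fin (r * 3) → ℂ := Sum.elim (fun i => -z * ev (c3 i)) (fun i => ev (c3 i))
  refine ⟨v, ?_, ?_⟩
  · intro h
    have := congrFun h (Sum.inr ⟨0, by omega⟩)
    simp [v, ev, c3] at this
  · funext a
    rw [sub_mulVec]
    have hsc : (scalar (Fin (r * 3) ⊕ Fin (r * 3)) (1 - z)) *ᵥ v = (1 - z) • v := by
      rw [scalar_apply, ← smul_one_eq_diagonal, smul_mulVec, one_mulVec]
    rw [hsc]
    rcases a with i | i
    · have h1 : ((dbl (blow s (r * 3) 0)).map (algebraMap ℝ ℂ) *ᵥ v) (Sum.inl i) =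
          -z * ev (c3 i) + ev (c3 i) -
            ∑ j, ((blow s (r * 3) 0 i j : ℝ) : ℂ) * ev (c3 j) := by
        simp only [mulVec, dotProduct, Fintype.sum_sum_type, map_apply, dbl, fromBlocks_apply₁₁,
          fromBlocks_apply₁₂, v, Sum.elim_inl, Sum.elim_inr, Matrix.sub_apply, map_sub, sub_mul,
          Finset.sum_sub_distrib]
        have h2 : ∑ x, (algebraMap ℝ ℂ) ((1 : Matrix (Fin (r * 3)) (Fin (r * 3)) ℝ) i x) *
            (-z * ev (c3 x)) = -z * ev (c3 i) := by
          rw [Finset.sum_eq_single i]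
          · simp
          · intro b _ hb; simp [one_apply, hb.symm]
          · simp
        have h3 : ∑ x, (algebraMap ℝ ℂ) ((1 : Matrix (Fin (r * 3)) (Fin (r * 3)) ℝ) i x) *
            (ev (c3 x)) = ev (c3 i) := by
          rw [Finset.sum_eq_single i]
          · simp
          · intro b _ hb; simp [one_apply, hb.symm]
          · simp
        rw [h2, h3]
        simp only [coe_algebraMap]
        ring
      rw [Pi.sub_apply, h1, blow_ev]
      simp only [Pi.smul_apply, v, Sum.elim_inl, smul_eq_mul, Pi.zero_apply]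
      linear_combination ev (c3 i) * hz
    · have h1 : ((dbl (blow s (r * 3) 0)).map (algebraMap ℝ ℂ) *ᵥ v) (Sum.inr i) =
          -z * ev (c3 i) + ev (c3 i) := by
        simp only [mulVec, dotProduct, Fintype.sum_sum_type, map_apply, dbl, fromBlocks_apply₂₁,
          fromBlocks_apply₂₂, v, Sum.elim_inl, Sum.elim_inr]
        have h2 : ∑ x, (algebraMap ℝ ℂ) ((1 : Matrix (Fin (r * 3)) (Fin (r * 3)) ℝ) i x) *
            (-z * ev (c3 x)) = -z * ev (c3 i) := by
          rw [Finset.sum_eq_single i]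
          · simp
          · intro b _ hb; simp [one_apply, hb.symm]
          · simp
        have h3 : ∑ x, (algebraMap ℝ ℂ) ((1 : Matrix (Fin (r * 3)) (Fin (r * 3)) ℝ) i x) *
            (ev (c3 x)) = ev (c3 i) := by
          rw [Finset.sum_eq_single i]
          · simp
          · intro b _ hb; simp [one_apply, hb.symm]
          · simp
        rw [h2, h3]
      rw [Pi.sub_apply, h1]
      simp only [Pi.smul_apply, v, Sum.elim_inr, smul_eq_mul, Pi.zero_apply]
      ring

lemma exists_eta (s : ℝ) (m : ℕ) (w : ℂ) (hw : w.re < 0)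
    (h0 : (scalar _ w - (dbl (blow s m 0)).map (algebraMap ℝ ℂ)).det = 0) :
    ∃ η : ℝ, 0 < η ∧ ∀ D : Fin m → ℝ, (∀ i, 0 ≤ D i ∧ D i < η) → ¬ Stable (dbl (blow s m D)) := by
  have hc : Continuous fun D : Fin m → ℝ =>
      ‖(scalar _ w - (dbl (blow s m D)).map (algebraMap ℝ ℂ)).det‖ := by
    refine Continuous.norm (Continuous.matrix_det (Continuous.sub continuous_const ?_))
    refine continuous_matrix fun i j => ?_
    simp only [map_apply, coe_algebraMap]
    refine Complex.continuous_ofReal.comp ?_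
    rcases i with i | i <;> rcases j with j | j
    · simp only [dbl, fromBlocks_apply₁₁]; exact continuous_const
    · simp only [dbl, fromBlocks_apply₁₂, Matrix.sub_apply, blow, of_apply]
      split_ifs <;> fun_prop
    · simp only [dbl, fromBlocks_apply₂₁]; exact continuous_const
    · simp only [dbl, fromBlocks_apply₂₂]; exact continuous_const
  have hpos : 0 < (-w.re) ^ Fintype.card (Fin m ⊕ Fin m) := pow_pos (by linarith) _
  have h1 := hc.tendsto 0
  simp only [h0, norm_zero] at h1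
  have h2 := h1.eventually_lt_const hpos
  obtain ⟨η, hη, h3⟩ := Metric.eventually_nhds_iff.1 h2
  refine ⟨η, hη, fun D hD hst => ?_⟩
  have h4 : dist D 0 < η := by
    rw [dist_zero_right, pi_norm_lt_iff hη]
    intro i
    rw [Real.norm_eq_abs, abs_of_nonneg (hD i).1]
    exact (hD i).2
  exact absurd (det_lower hst hw) (not_le.2 (h3 h4))

lemma pow_lt_two (d : ℕ) (hd : 1 ≤ d) : (1 + 2 / (3 * (d : ℝ))) ^ d < 2 := by
  have hd0 : (0 : ℝ) < d := by exact_mod_cast hd
  have h1 : 1 + 2 / (3 * (d : ℝ)) ≤ Real.exp (2 / (3 * (d : ℝ))) := by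
    have := Real.add_one_le_exp (2 / (3 * (d : ℝ)))
    linarith
  calc (1 + 2 / (3 * (d : ℝ))) ^ d ≤ Real.exp (2 / (3 * (d : ℝ))) ^ d := by gcongr
    _ = Real.exp (2 / 3) := by
      rw [← Real.exp_nat_mul]
      congr 1
      field_simp
    _ < 2 := by
      rw [← Real.lt_log_iff_exp_lt (by norm_num)]
      have := Real.log_two_gt_d9
      linarith

/-- **The existence theorem in the dimension `900 d`.** -/
theorem exists_good_unstable (d : ℕ) (hd : 1 ≤ d) :
    ∃ M : Matrix (Fin (150 * d * 3)) (Fin (150 * d * 3)) ℝ,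
      Good (2 / (3 * (d : ℝ))) M ∧ ¬ Stable (dbl M) := by
  have hd0 : (0 : ℝ) < d := by exact_mod_cast hd
  set s : ℝ := 1.31 / (150 * d) with hs
  have hs0 : 0 < s := by positivity
  have hsr : s * ((150 * d : ℕ) : ℝ) = 1.31 := by
    rw [hs]; push_cast; field_simp
  obtain ⟨z, hz1, hz2⟩ := exists_sqrt (ρ := s * ((150 * d : ℕ) : ℝ)) (by rw [hsr]; norm_num)
  have h0 := det_zero s (150 * d) (by omega) z hz2
  obtain ⟨η, hη, h1⟩ := exists_eta s _ (1 - z) (by rw [sub_re, one_re]; linarith) h0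
  obtain ⟨D, hD1, -, hG⟩ := exists_blow hs0 (150 * d * 3) (by omega) (2 / (3 * (d : ℝ))) η
    (by
      rw [hs, div_mul_div_comm, div_lt_div_iff₀ (by positivity) (by positivity)]
      nlinarith) hη
  exact ⟨_, hG, h1 D hD1⟩

end Pool.Agent.K3lead.SD
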